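import Pool.Agent.X31.BK.Stm

set_option autoImplicit false

namespace Pool.Agent.X197.BK

open Metric Set Filter Topology Pool.Agent.X31.BK

theorem exists_roots (s q : ℂ) : ∃ a b : ℂ, a + b = s ∧ a * b = q := by
  obtain ⟨r, hr⟩ := IsAlgClosed.exists_pow_nat_eq (s ^ 2 - 4 * q) (n := 2) two_pos
  refine ⟨(s + r) / 2, (s - r) / 2, by ring, ?_⟩
  linear_combination (-1 / 4 : ℂ) * hr

theorem root_lt {α β a b : ℂ} (hα : ‖α‖ < 1) (hβ : ‖β‖ < 1) {ε : ℝ}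
    (hs : ‖a + b - (α + β)‖ < ε) (hq : ‖a * b - α * β‖ < ε)
    (hε : 2 * ε ≤ (1 - ‖α‖) * (1 - ‖β‖)) : ‖a‖ < 1 := by
  by_contra h
  rw [not_lt] at h
  have e : (a - α) * (a - β) = (a + b - (α + β)) * a - (a * b - α * β) := by ring
  have h1 : ‖a - α‖ * ‖a - β‖ ≤ ε * ‖a‖ + ε := by
    rw [← norm_mul, e]
    refine (norm_sub_le _ _).trans ?_
    rw [norm_mul]
    exact add_le_add (mul_le_mul_of_nonneg_right hs.le (norm_nonneg _)) hq.le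
  have hε0 : 0 < ε := (norm_nonneg _).trans_lt hs
  have h2 : ‖a‖ * (1 - ‖α‖) ≤ ‖a - α‖ := by
    have := norm_sub_norm_le a α
    nlinarith [norm_nonneg α]
  have h3 : ‖a‖ * (1 - ‖β‖) ≤ ‖a - β‖ := by
    have := norm_sub_norm_le a β
    nlinarith [norm_nonneg β]
  have h4 : (‖a‖ * (1 - ‖α‖)) * (‖a‖ * (1 - ‖β‖)) ≤ ‖a - α‖ * ‖a - β‖ :=
    mul_le_mul h2 h3 (mul_nonneg (norm_nonneg _) (by linarith)) (norm_nonneg _)
  have h5 : ‖a‖ ^ 2 * ((1 - ‖α‖) * (1 - ‖β‖)) ≤ ε * ‖a‖ + ε := by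
    calc _ = (‖a‖ * (1 - ‖α‖)) * (‖a‖ * (1 - ‖β‖)) := by ring
      _ ≤ _ := h4.trans h1
  have h6 : ‖a‖ ^ 2 * (2 * ε) ≤ ε * ‖a‖ + ε :=
    (mul_le_mul_of_nonneg_left hε (by positivity)).trans h5
  -- strictness: the first inequality is strict unless the left side is zero
  have h7 : ‖a - α‖ * ‖a - β‖ < ε * ‖a‖ + ε := by
    rw [← norm_mul, e]
    refine (norm_sub_le _ _).trans_lt ?_
    rw [norm_mul]
    exact add_lt_add_of_le_of_lt (mul_le_mul_of_nonneg_right hs.le (norm_nonneg _)) hq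
  have h8 : ‖a‖ ^ 2 * (2 * ε) < ε * ‖a‖ + ε := by
    calc _ ≤ ‖a‖ ^ 2 * ((1 - ‖α‖) * (1 - ‖β‖)) := mul_le_mul_of_nonneg_left hε (by positivity)
      _ = (‖a‖ * (1 - ‖α‖)) * (‖a‖ * (1 - ‖β‖)) := by ring
      _ ≤ _ := h4
      _ < _ := h7
  have h9 : 0 ≤ ε * (2 * ‖a‖ + 1) * (‖a‖ - 1) :=
    mul_nonneg (by positivity) (by linarith)
  nlinarith

theorem isOpen_G2 : IsOpen G2 := by
  rw [Metric.isOpen_iff]
  rintro _ ⟨α, β, hα, hβ, rfl⟩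
  have hδ : 0 < (1 - ‖α‖) * (1 - ‖β‖) := mul_pos (by linarith) (by linarith)
  refine ⟨(1 - ‖α‖) * (1 - ‖β‖) / 2, by positivity, ?_⟩
  rintro ⟨s, q⟩ hp
  obtain ⟨a, b, hs, hq⟩ := exists_roots s q
  rw [mem_ball, Prod.dist_eq, max_lt_iff, dist_eq_norm, dist_eq_norm] at hp
  simp only at hp
  rw [← hs, ← hq] at hp
  refine ⟨a, b, root_lt hα hβ hp.1 hp.2 (by linarith), ?_, by rw [← hs, ← hq]⟩
  refine root_lt (a := b) (b := a) hα hβ ?_ ?_ (by linarith : 2 * ((1 - ‖α‖) * (1 - ‖β‖) / 2) ≤ _)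
  · rw [add_comm b a]; exact hp.1
  · rw [mul_comm b a]; exact hp.2

/-- the smooth boundary points -/
theorem smooth_point {p : ℂ × ℂ} (hp : p ∈ frontier G2)
    (hS : ¬ ∃ a b : ℂ, ‖a‖ = 1 ∧ ‖b‖ = 1 ∧ p = (a + b, a * b)) :
    ∃ τ lam : ℂ, ‖τ‖ = 1 ∧ ‖lam‖ < 1 ∧ p = (τ + lam, τ * lam) := by
  have hcl : closure G2 ⊆ (fun x : ℂ × ℂ => (x.1 + x.2, x.1 * x.2)) ''
      (closedBall (0 : ℂ) 1 ×ˢ closedBall (0 : ℂ) 1) := by
    refine closure_minimal ?_ ?_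
    · rintro _ ⟨a, b, ha, hb, rfl⟩
      exact ⟨(a, b), ⟨by simpa using ha.le, by simpa using hb.le⟩, rfl⟩
    · refine IsCompact.isClosed ?_
      refine ((isCompact_closedBall _ _).prod (isCompact_closedBall _ _)).image ?_
      fun_prop
  rw [isOpen_G2.frontier_eq] at hp
  obtain ⟨⟨a, b⟩, ⟨ha, hb⟩, hab⟩ := hcl hp.1
  simp only [mem_closedBall_zero_iff] at ha hb
  simp only at hab
  rcases ha.lt_or_eq with ha1 | ha1
  · rcases hb.lt_or_eq with hb1 | hb1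
    · exact absurd ⟨a, b, ha1, hb1, hab.symm⟩ hp.2
    · exact ⟨b, a, hb1, ha1, by rw [← hab, add_comm, mul_comm]⟩
  · rcases hb.lt_or_eq with hb1 | hb1
    · exact ⟨a, b, ha1, hb1, hab.symm⟩
    · exact absurd ⟨a, b, ha1, hb1, hab.symm⟩ hS

theorem frontier_param {p : ℂ × ℂ} (hp : p ∈ frontier G2)
    (hS : p ∉ {w : ℂ × ℂ | ∃ a b : ℂ, ‖a‖ = 1 ∧ ‖b‖ = 1 ∧ w = (a + b, a * b)}) :
    ∃ τ lam : ℂ, ‖τ‖ = 1 ∧ ‖lam‖ < 1 ∧ p = (τ + lam, τ * lam) :=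
  smooth_point hp hS

end Pool.Agent.X197.BK
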