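import Pool.Agent.X197.BK.Sp

set_option autoImplicit false

namespace Pool.Agent.X197.BKN

open Metric Set Filter Topology Asymptotics Pool.Agent.X197.BK

/-- the elementary symmetric polynomials `σ_1, ..., σ_n` -/
noncomputable def esy {n : ℕ} (l : Fin n → ℂ) : Fin n → ℂ :=
  fun k => ∑ s ∈ Finset.powersetCard ((k : ℕ) + 1) Finset.univ, ∏ i ∈ s, l i

/-- the symmetrized polydisc -/
def Gn (n : ℕ) : Set (Fin n → ℂ) := {z | ∃ l : Fin n → ℂ, (∀ j, ‖l j‖ < 1) ∧ z = esy l}

/-- the polynomial with the elementary symmetric polynomials `z` -/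
noncomputable def PP {n : ℕ} (z : Fin n → ℂ) (t : ℂ) : ℂ :=
  t ^ n + ∑ k : Fin n, (-1) ^ ((k : ℕ) + 1) * z k * t ^ (n - ((k : ℕ) + 1))

/-- its derivative -/
noncomputable def DP {n : ℕ} (z : Fin n → ℂ) (t : ℂ) : ℂ :=
  n * t ^ (n - 1) + ∑ k : Fin n, (-1) ^ ((k : ℕ) + 1) * z k *
    ((n - ((k : ℕ) + 1) : ℕ) * t ^ (n - ((k : ℕ) + 1) - 1))

theorem PP_esy {n : ℕ} (l : Fin n → ℂ) (t : ℂ) : PP (esy l) t = ∏ j, (t - l j) := by
  have h := congrArg (Polynomial.eval t)
    (Multiset.prod_X_sub_X_eq_sum_esymm (Finset.univ.val.map l))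
  rw [Multiset.map_map] at h
  have h1 : Polynomial.eval t ((Multiset.map ((fun t => Polynomial.X - Polynomial.C t) ∘ l)
      (Finset.univ : Finset (Fin n)).val).prod) = ∏ j, (t - l j) := by
    have : (Multiset.map ((fun t => Polynomial.X - Polynomial.C t) ∘ l)
      (Finset.univ : Finset (Fin n)).val).prod = ∏ j, (Polynomial.X - Polynomial.C (l j)) := rfl
    rw [this, Polynomial.eval_prod]
    simp
  rw [h1] at h
  rw [h, Polynomial.eval_finset_sum]
  simp only [Multiset.card_map, Finset.card_val, Finset.card_univ, Fintype.card_fin]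
  rw [Finset.sum_range_succ', PP, add_comm]
  congr 1
  · rw [Finset.sum_range]
    refine Finset.sum_congr rfl fun k _ => ?_
    rw [Finset.esymm_map_val, Polynomial.eval_mul, Polynomial.eval_pow, Polynomial.eval_neg,
      Polynomial.eval_one, Polynomial.eval_mul, Polynomial.eval_C, Polynomial.eval_pow,
      Polynomial.eval_X]
    simp only [esy]
    ring
  · simp [Multiset.esymm]

theorem hasDerivAt_PP {n : ℕ} (z : Fin n → ℂ) (t : ℂ) : HasDerivAt (PP z) (DP z t) t := by
  unfold PP DP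
  refine (hasDerivAt_pow n t).add ?_
  refine HasDerivAt.fun_sum fun k _ => ?_
  exact (hasDerivAt_pow _ t).const_mul _

/-- the magic function of `τ` -/
noncomputable def KK {n : ℕ} (τ : ℂ) (z : Fin n → ℂ) : ℂ := 2 * τ * DP z τ / PP z τ - n

theorem sub_ne {τ a : ℂ} (hτ : ‖τ‖ = 1) (ha : ‖a‖ < 1) : τ - a ≠ 0 := by
  intro h
  rw [sub_eq_zero] at h
  rw [← h] at ha
  linarith

theorem KK_esy {n : ℕ} {τ : ℂ} (l : Fin n → ℂ) (hl : ∀ j, τ - l j ≠ 0) :
    KK τ (esy l) = ∑ j, (τ + l j) / (τ - l j) := by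
  have h1 : PP (esy l) = fun t => ∏ j, (t - l j) := funext (PP_esy l)
  have h2 : DP (esy l) τ = deriv (PP (esy l)) τ := (hasDerivAt_PP _ _).deriv.symm
  have h3 : DP (esy l) τ / PP (esy l) τ = ∑ j, 1 / (τ - l j) := by
    have h4 : logDeriv (PP (esy l)) τ = DP (esy l) τ / PP (esy l) τ := by
      rw [logDeriv_apply, h2]
    rw [← h4, h1]
    have h5 := logDeriv_prod (s := Finset.univ) (f := fun j (t : ℂ) => t - l j) (x := τ)
      (fun j _ => hl j) (fun j _ => by fun_prop)
    rw [h5]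
    refine Finset.sum_congr rfl fun j _ => ?_
    rw [logDeriv_apply]
    simp
  rw [KK, mul_div_assoc, h3, Finset.mul_sum]
  have h6 : (n : ℂ) = ∑ j : Fin n, (1 : ℂ) := by simp
  rw [h6, ← Finset.sum_sub_distrib]
  refine Finset.sum_congr rfl fun j _ => ?_
  have := hl j
  field_simp
  ring

theorem diff_esy {n : ℕ} : Differentiable ℂ (esy (n := n)) := by
  rw [differentiable_pi]
  intro k
  unfold esy
  fun_prop

/-- linear algebra -/
noncomputable def MM {n : ℕ} (T : Fin n → ℂ) (z : Fin n → ℂ) : Matrix (Fin n) (Fin n) ℂ :=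
  fun k i => DP z (T k) * T k ^ (i : ℕ) - PP z (T k) * ((i : ℕ) * T k ^ ((i : ℕ) - 1))

theorem det_ne {n : ℕ} (T : Fin n → ℂ) (hT : Function.Injective T) : (MM T (esy T)).det ≠ 0 := by
  have h1 : ∀ k, PP (esy T) (T k) = 0 := by
    intro k
    rw [PP_esy]
    exact Finset.prod_eq_zero (Finset.mem_univ k) (sub_self _)
  have h2 : ∀ k, DP (esy T) (T k) ≠ 0 := by
    intro k
    have e1 : DP (esy T) (T k) = deriv (PP (esy T)) (T k) := (hasDerivAt_PP _ _).deriv.symm
    have e2 : PP (esy T) = fun t => (t - T k) * ∏ j ∈ Finset.univ.erase k, (t - T j) := by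
      funext t
      rw [PP_esy]
      exact (Finset.mul_prod_erase Finset.univ (fun j => t - T j) (Finset.mem_univ k)).symm
    have e3 : HasDerivAt (fun t => (t - T k) * ∏ j ∈ Finset.univ.erase k, (t - T j))
        (1 * (∏ j ∈ Finset.univ.erase k, (T k - T j)) + (T k - T k) *
          deriv (fun t => ∏ j ∈ Finset.univ.erase k, (t - T j)) (T k)) (T k) := by
      refine HasDerivAt.mul (((hasDerivAt_id (T k)).sub_const _)) ?_
      refine DifferentiableAt.hasDerivAt ?_
      fun_prop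
    rw [e1, e2, e3.deriv, sub_self, zero_mul, add_zero, one_mul]
    refine Finset.prod_ne_zero_iff.2 fun j hj => ?_
    rw [Finset.mem_erase] at hj
    exact sub_ne_zero.2 fun h => hj.1 (hT h).symm
  have h3 : MM T (esy T) = Matrix.diagonal (fun k => DP (esy T) (T k)) * Matrix.vandermonde T := by
    ext k i
    rw [Matrix.diagonal_mul, Matrix.vandermonde_apply]
    simp only [MM, h1, zero_mul, sub_zero]
  rw [h3, Matrix.det_mul, Matrix.det_diagonal]
  refine mul_ne_zero (Finset.prod_ne_zero_iff.2 fun k _ => h2 k) ?_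
  exact Matrix.det_vandermonde_ne_zero_iff.2 hT

/-- uniqueness -/
theorem uniq {n : ℕ} (T : Fin n → ℂ) (z q : Fin n → ℂ) (hdet : (MM T z).det ≠ 0)
    (h : ∀ k, DP q (T k) * PP z (T k) = DP z (T k) * PP q (T k)) : q = z := by
  -- the difference polynomial in the monomial basis
  set r : Fin n → ℂ := fun i => (-1) ^ (n - (i : ℕ)) * (q ⟨n - 1 - i, by omega⟩ -
    z ⟨n - 1 - i, by omega⟩) with hr
  have hre : ∀ f : ℕ → ℂ, ∑ k : Fin n, (-1) ^ ((k : ℕ) + 1) * (q k - z k) *
      f (n - ((k : ℕ) + 1)) = ∑ i : Fin n, r i * f i := by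
    intro f
    rw [← Equiv.sum_comp Fin.revPerm]
    refine Finset.sum_congr rfl fun i _ => ?_
    have e1 : ((Fin.revPerm i : Fin n) : ℕ) = n - 1 - i := by
      simp [Fin.revPerm, Fin.rev]
      omega
    have e2 : (Fin.revPerm i : Fin n) = ⟨n - 1 - i, by omega⟩ := Fin.ext e1
    rw [e1]
    have e3 : n - 1 - (i : ℕ) + 1 = n - i := by omega
    have e4 : n - (n - i) = (i : ℕ) := by omega
    rw [e3, e4, e2]
  have hP : ∀ t, PP q t - PP z t = ∑ i : Fin n, r i * t ^ (i : ℕ) := by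
    intro t
    rw [← hre (fun m => t ^ m), PP, PP, add_sub_add_left_eq_sub, ← Finset.sum_sub_distrib]
    refine Finset.sum_congr rfl fun k _ => ?_
    ring
  have hD : ∀ t, DP q t - DP z t = ∑ i : Fin n, r i * ((i : ℕ) * t ^ ((i : ℕ) - 1)) := by
    intro t
    rw [← hre (fun m => (m : ℂ) * t ^ (m - 1)), DP, DP, add_sub_add_left_eq_sub,
      ← Finset.sum_sub_distrib]
    refine Finset.sum_congr rfl fun k _ => ?_
    ring
  have hker : (MM T z).mulVec r = 0 := by
    funext k
    have h1 := h k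
    have h2 : (DP q (T k) - DP z (T k)) * PP z (T k) =
        DP z (T k) * (PP q (T k) - PP z (T k)) := by
      linear_combination h1
    rw [hP, hD] at h2
    simp only [Matrix.mulVec, dotProduct, MM, Pi.zero_apply]
    have h3 : ∑ i : Fin n, (DP z (T k) * T k ^ (i : ℕ) -
        PP z (T k) * ((i : ℕ) * T k ^ ((i : ℕ) - 1))) * r i =
        DP z (T k) * (∑ i : Fin n, r i * T k ^ (i : ℕ)) -
        (∑ i : Fin n, r i * ((i : ℕ) * T k ^ ((i : ℕ) - 1))) * PP z (T k) := by
      rw [Finset.mul_sum, Finset.sum_mul, ← Finset.sum_sub_distrib]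
      refine Finset.sum_congr rfl fun i _ => ?_
      ring
    rw [h3, h2, sub_self]
  have hr0 : r = 0 := Matrix.eq_zero_of_mulVec_eq_zero hdet hker
  funext k
  have h1 := congrFun hr0 ⟨n - 1 - k, by omega⟩
  simp only [hr, Pi.zero_apply, mul_eq_zero] at h1
  rcases h1 with h1 | h1
  · exact absurd h1 (pow_ne_zero _ (by norm_num))
  · have e : (⟨n - 1 - (n - 1 - (k : ℕ)), by omega⟩ : Fin n) = k := Fin.ext (by simp; omega)
    rw [e] at h1
    exact sub_eq_zero.1 h1

end Pool.Agent.X197.BKN
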