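import Pool.Agent.X197.BK.N1

set_option autoImplicit false

namespace Pool.Agent.X197.BKN

open Metric Set Filter Topology Asymptotics Pool.Agent.X197.BK

/-- the inverse Cayley transform -/
noncomputable def lam (τ w : ℂ) : ℂ := τ * ((w - 1) / (w + 1))

theorem add_one_ne {w : ℂ} (hw : 0 ≤ w.re) : w + 1 ≠ 0 := by
  intro h
  have := congrArg Complex.re h
  simp at this
  linarith

theorem one_le_add {w : ℂ} (hw : 0 ≤ w.re) : 1 ≤ ‖w + 1‖ := by
  have := (le_abs_self _).trans (Complex.abs_re_le_norm (w + 1))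
  simp at this
  linarith

theorem lam_lt {τ w : ℂ} (hτ : ‖τ‖ = 1) (hw : 0 < w.re) : ‖lam τ w‖ < 1 := by
  rw [lam, norm_mul, hτ, one_mul]
  have := sp_lt (a := w) (b := 1) hw (by simp)
  simpa using this

theorem tau_sub_lam {τ w : ℂ} (hw : 0 ≤ w.re) : τ - lam τ w = τ * (2 / (w + 1)) := by
  have := add_one_ne hw
  rw [lam]
  field_simp
  ring

theorem cay_lam {τ w : ℂ} (hτ : ‖τ‖ = 1) (hw : 0 ≤ w.re) :
    (τ + lam τ w) / (τ - lam τ w) = w := by
  have h1 := add_one_ne hw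
  have h0 : τ ≠ 0 := by intro h; rw [h] at hτ; simp at hτ
  rw [tau_sub_lam hw, div_eq_iff (mul_ne_zero h0 (div_ne_zero two_ne_zero h1)), lam]
  field_simp
  ring

theorem lam_cay {τ a : ℂ} (hτ : ‖τ‖ = 1) (ha : τ - a ≠ 0) :
    lam τ ((τ + a) / (τ - a)) = a := by
  have h0 : τ ≠ 0 := by intro h; rw [h] at hτ; simp at hτ
  have h1 : (τ + a) / (τ - a) + 1 = 2 * τ / (τ - a) := by field_simp; ring
  have h2 : (τ + a) / (τ - a) - 1 = 2 * a / (τ - a) := by field_simp; ring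
  rw [lam, h1, h2]
  field_simp

theorem lam_sub {τ u v : ℂ} (hτ : ‖τ‖ = 1) (hu : 0 ≤ u.re) (hv : 0 ≤ v.re) :
    ‖lam τ u - lam τ v‖ ≤ 2 * ‖u - v‖ := by
  have h1 := add_one_ne hu
  have h2 := add_one_ne hv
  have e : lam τ u - lam τ v = τ * (2 * (u - v) / ((u + 1) * (v + 1))) := by
    rw [lam, lam]
    field_simp
    ring
  rw [e, norm_mul, hτ, one_mul, norm_div, norm_mul, norm_mul]
  rw [div_le_iff₀ (by positivity)]
  have h3 := one_le_add hu
  have h4 := one_le_add hv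
  have h5 : 1 ≤ ‖u + 1‖ * ‖v + 1‖ := by nlinarith
  have : ‖(2 : ℂ)‖ = 2 := by simp
  rw [this]
  have h6 : 0 ≤ 2 * ‖u - v‖ := by positivity
  nlinarith

theorem hinv : Tendsto (fun x : ℝ => ((x : ℂ))⁻¹) atTop (𝓝 0) := by
  have := tendsto_inv_atTop_zero (𝕜 := ℝ)
  have h2 : Tendsto (fun x : ℝ => ((x⁻¹ : ℝ) : ℂ)) atTop (𝓝 ((0 : ℝ) : ℂ)) :=
    (Complex.continuous_ofReal.tendsto 0).comp this
  simpa using h2

theorem asym {n : ℕ} (F : (Fin n → ℂ) → Fin n → ℂ) (T : Fin n → ℂ) (hT : ∀ j, ‖T j‖ = 1)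
    (hTi : Function.Injective T)
    (ho : (fun z => F z - z) =o[𝓝[Gn n] (esy T)] (fun z => ‖z - esy T‖ ^ 3)) (k0 : Fin n)
    (y : Fin n → ℝ) (hy : ∀ j, j ≠ k0 → (T k0 + T j) / (T k0 - T j) = y j * Complex.I)
    (s : ℂ → Fin n → ℂ) (hs : ∀ z : ℂ, 0 < z.re → ∀ j, 0 < (s z j).re)
    (hk : ∀ z, s z k0 = z)
    (hj : ∀ j, j ≠ k0 → ∃ C : ℝ, ∀ x : ℝ, 1 ≤ x → ‖s x j - y j * Complex.I‖ ≤ C / x) :
    Tendsto (fun x : ℝ => (x : ℂ) * (KK (T k0) (F (esy fun j => lam (T k0) (s x j))) -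
      ∑ j, s x j)) atTop (𝓝 0) := by
  set τ : ℂ := T k0 with hτdef
  have hτ : ‖τ‖ = 1 := hT k0
  have hτ0 : τ ≠ 0 := by intro h; rw [h] at hτ; simp at hτ
  set L : ℝ → Fin n → ℂ := fun x j => lam τ (s x j) with hL
  have hpos : ∀ x : ℝ, 1 ≤ x → ∀ j, 0 < (s x j).re := fun x hx j =>
    hs x (by simp; linarith) j
  have hLT : ∀ j, ∃ C : ℝ, ∀ x : ℝ, 1 ≤ x → ‖L x j - T j‖ ≤ C / x := by
    intro j
    by_cases h : j = k0
    · refine ⟨2, fun x hx => ?_⟩
      have hx0 : 0 < x := by linarith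
      rw [h]
      have e : L x k0 - T k0 = -(τ - lam τ x) := by
        simp only [hL, hk, ← hτdef]
        ring
      rw [e, norm_neg, tau_sub_lam (by simpa using hx0.le), norm_mul, hτ, one_mul, norm_div]
      have h2 : ‖(2 : ℂ)‖ = 2 := by simp
      have h3 : ‖(x : ℂ) + 1‖ = x + 1 := by
        have : (x : ℂ) + 1 = ((x + 1 : ℝ) : ℂ) := by push_cast; ring
        rw [this, Complex.norm_real, Real.norm_eq_abs, abs_of_pos (by linarith)]
      rw [h2, h3]
      exact div_le_div_of_nonneg_left (by norm_num) hx0 (by linarith)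
    · obtain ⟨C, hC⟩ := hj j h
      refine ⟨2 * C, fun x hx => ?_⟩
      have hne : τ - T j ≠ 0 := sub_ne_zero.2 fun h' => h (hTi h').symm
      have e : T j = lam τ (y j * Complex.I) := by
        rw [← hy j h, lam_cay hτ hne]
      rw [e]
      refine (lam_sub hτ (hpos x hx j).le (by simp)).trans ?_
      calc 2 * ‖s x j - y j * Complex.I‖ ≤ 2 * (C / x) :=
            mul_le_mul_of_nonneg_left (hC x hx) (by norm_num)
        _ = 2 * C / x := by ring
  have hO1 : (fun x : ℝ => L x - T) =O[atTop] (fun x : ℝ => x⁻¹) := by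
    rw [isBigO_pi]
    intro j
    obtain ⟨C, hC⟩ := hLT j
    refine IsBigO.of_bound C ?_
    filter_upwards [eventually_ge_atTop (1 : ℝ)] with x hx
    have hx0 : 0 < x := by linarith
    rw [Real.norm_eq_abs, abs_of_pos (by positivity), ← div_eq_mul_inv]
    exact hC x hx
  have hinvR : Tendsto (fun x : ℝ => x⁻¹) atTop (𝓝 0) := tendsto_inv_atTop_zero
  have hLt : Tendsto L atTop (𝓝 T) := by
    have := hO1.trans_tendsto hinvR
    have h2 := this.add_const T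
    simpa using h2
  set z : ℝ → Fin n → ℂ := fun x => esy (L x) with hz
  have hO2 : (fun x : ℝ => z x - esy T) =O[atTop] (fun x : ℝ => x⁻¹) :=
    ((diff_esy T).isBigO_sub.comp_tendsto hLt).trans hO1
  have hzt : Tendsto z atTop (𝓝 (esy T)) := (diff_esy.continuous.tendsto T).comp hLt
  have hzG : ∀ x : ℝ, 1 ≤ x → z x ∈ Gn n := fun x hx =>
    ⟨L x, fun j => lam_lt hτ (hpos x hx j), rfl⟩
  have hztw : Tendsto z atTop (𝓝[Gn n] (esy T)) :=
    tendsto_nhdsWithin_iff.2 ⟨hzt, by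
      filter_upwards [eventually_ge_atTop (1 : ℝ)] with x hx
      exact hzG x hx⟩
  have ho3 : (fun x : ℝ => F (z x) - z x) =o[atTop] (fun x : ℝ => (x⁻¹) ^ 3) := by
    have h1 := ho.comp_tendsto hztw
    refine h1.trans_isBigO ?_
    exact (hO2.norm_left).pow 3
  have hx3 : ∀ k, Tendsto (fun x : ℝ => (x : ℂ) ^ 3 * (F (z x) k - z x k)) atTop (𝓝 0) := by
    intro k
    have h1 : (fun x : ℝ => F (z x) k - z x k) =o[atTop] (fun x : ℝ => (x⁻¹) ^ 3) :=
      (isLittleO_pi.1 ho3) k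
    rw [tendsto_zero_iff_norm_tendsto_zero]
    have h2 := h1.norm_left.tendsto_div_nhds_zero
    refine h2.congr' ?_
    filter_upwards [eventually_gt_atTop (0 : ℝ)] with x hx
    rw [norm_mul, norm_pow, Complex.norm_real, Real.norm_eq_abs, abs_of_pos hx]
    field_simp
  have hP1 : Tendsto (fun x : ℝ => (x : ℂ) ^ 3 * (PP (F (z x)) τ - PP (z x) τ)) atTop (𝓝 0) := by
    have h1 : Tendsto (fun x : ℝ => ∑ k : Fin n, ((-1) ^ ((k : ℕ) + 1) *
        τ ^ (n - ((k : ℕ) + 1))) * ((x : ℂ) ^ 3 * (F (z x) k - z x k))) atTop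
        (𝓝 (∑ k : Fin n, ((-1) ^ ((k : ℕ) + 1) * τ ^ (n - ((k : ℕ) + 1))) * 0)) :=
      tendsto_finset_sum _ fun k _ => (hx3 k).const_mul _
    simp only [mul_zero, Finset.sum_const_zero] at h1
    refine h1.congr fun x => ?_
    rw [PP, PP, add_sub_add_left_eq_sub, ← Finset.sum_sub_distrib, Finset.mul_sum]
    refine Finset.sum_congr rfl fun k _ => ?_
    ring
  have hD1 : Tendsto (fun x : ℝ => (x : ℂ) ^ 3 * (DP (F (z x)) τ - DP (z x) τ)) atTop (𝓝 0) := by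
    have h1 : Tendsto (fun x : ℝ => ∑ k : Fin n, ((-1) ^ ((k : ℕ) + 1) *
        ((n - ((k : ℕ) + 1) : ℕ) * τ ^ (n - ((k : ℕ) + 1) - 1))) *
        ((x : ℂ) ^ 3 * (F (z x) k - z x k))) atTop
        (𝓝 (∑ k : Fin n, ((-1) ^ ((k : ℕ) + 1) *
        ((n - ((k : ℕ) + 1) : ℕ) * τ ^ (n - ((k : ℕ) + 1) - 1))) * 0)) :=
      tendsto_finset_sum _ fun k _ => (hx3 k).const_mul _
    simp only [mul_zero, Finset.sum_const_zero] at h1
    refine h1.congr fun x => ?_
    rw [DP, DP, add_sub_add_left_eq_sub, ← Finset.sum_sub_distrib, Finset.mul_sum]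
    refine Finset.sum_congr rfl fun k _ => ?_
    ring
  have hcD : Continuous fun w : Fin n → ℂ => DP w τ := by
    unfold DP
    fun_prop
  have hcP : Continuous fun w : Fin n → ℂ => PP w τ := by
    unfold PP
    fun_prop
  have hD0 : Tendsto (fun x : ℝ => DP (z x) τ) atTop (𝓝 (DP (esy T) τ)) :=
    (hcD.tendsto _).comp hzt
  have hP0 : Tendsto (fun x : ℝ => PP (z x) τ) atTop (𝓝 (PP (esy T) τ)) :=
    (hcP.tendsto _).comp hzt
  set c : ℂ := 2 * τ * ∏ j ∈ Finset.univ.erase k0, (τ - T j) with hc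
  have hc0 : c ≠ 0 := by
    refine mul_ne_zero (mul_ne_zero two_ne_zero hτ0) (Finset.prod_ne_zero_iff.2 fun j hj => ?_)
    rw [Finset.mem_erase] at hj
    exact sub_ne_zero.2 fun h' => hj.1 (hTi h').symm
  have hA : Tendsto (fun x : ℝ => (x : ℂ) * PP (z x) τ) atTop (𝓝 c) := by
    have h1 : Tendsto (fun x : ℝ => (2 * τ / (1 + (x : ℂ)⁻¹)) *
        ∏ j ∈ Finset.univ.erase k0, (τ - L x j)) atTop
        (𝓝 ((2 * τ / (1 + 0)) * ∏ j ∈ Finset.univ.erase k0, (τ - T j))) := by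
      refine Tendsto.mul ?_ ?_
      · exact tendsto_const_nhds.div (hinv.const_add 1) (by norm_num)
      · refine tendsto_finset_prod _ fun j _ => ?_
        exact ((continuous_apply j).tendsto T |>.comp hLt).const_sub τ
    rw [add_zero, div_one] at h1
    refine h1.congr' ?_
    filter_upwards [eventually_ge_atTop (1 : ℝ)] with x hx
    have hx0 : (x : ℂ) ≠ 0 := by exact_mod_cast (by linarith : x ≠ 0)
    have hx1 : (x : ℂ) + 1 ≠ 0 := add_one_ne (by simp; linarith)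
    have e1 : PP (z x) τ = (τ - L x k0) * ∏ j ∈ Finset.univ.erase k0, (τ - L x j) := by
      simp only [hz]
      rw [PP_esy]
      exact (Finset.mul_prod_erase Finset.univ (fun j => τ - L x j) (Finset.mem_univ k0)).symm
    have e2 : τ - L x k0 = τ * (2 / ((x : ℂ) + 1)) := by
      simp only [hL, hk]
      exact tau_sub_lam (by simp; linarith)
    have e3 : 2 * τ / (1 + (x : ℂ)⁻¹) = x * (τ * (2 / ((x : ℂ) + 1))) := by
      have : 1 + (x : ℂ)⁻¹ = ((x : ℂ) + 1) / x := by field_simp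
      rw [this]
      field_simp
    rw [e1, e2, e3]
    ring
  have hB : Tendsto (fun x : ℝ => (x : ℂ) * PP (F (z x)) τ) atTop (𝓝 c) := by
    have h1 : Tendsto (fun x : ℝ => (x : ℂ) * PP (z x) τ +
        ((x : ℂ)⁻¹) ^ 2 * ((x : ℂ) ^ 3 * (PP (F (z x)) τ - PP (z x) τ))) atTop
        (𝓝 (c + 0 ^ 2 * 0)) := hA.add ((hinv.pow 2).mul hP1)
    rw [mul_zero, add_zero] at h1
    refine h1.congr' ?_
    filter_upwards [eventually_gt_atTop (0 : ℝ)] with x hx
    have hx0 : (x : ℂ) ≠ 0 := by exact_mod_cast hx.ne'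
    field_simp
    ring
  have hfin : Tendsto (fun x : ℝ => 2 * τ * (((x : ℂ) ^ 3 * (DP (F (z x)) τ - DP (z x) τ)) *
      PP (z x) τ - DP (z x) τ * ((x : ℂ) ^ 3 * (PP (F (z x)) τ - PP (z x) τ))) /
      (((x : ℂ) * PP (F (z x)) τ) * ((x : ℂ) * PP (z x) τ))) atTop
      (𝓝 (2 * τ * (0 * PP (esy T) τ - DP (esy T) τ * 0) / (c * c))) :=
    (((hD1.mul hP0).sub (hD0.mul hP1)).const_mul _).div (hB.mul hA) (mul_ne_zero hc0 hc0)
  rw [zero_mul, mul_zero, sub_zero, mul_zero, zero_div] at hfin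
  refine hfin.congr' ?_
  have hAne : ∀ᶠ x : ℝ in atTop, (x : ℂ) * PP (z x) τ ≠ 0 := hA.eventually_ne hc0
  have hBne : ∀ᶠ x : ℝ in atTop, (x : ℂ) * PP (F (z x)) τ ≠ 0 := hB.eventually_ne hc0
  filter_upwards [eventually_ge_atTop (1 : ℝ), hAne, hBne] with x hx ha hb
  have hx0 : (x : ℂ) ≠ 0 := by exact_mod_cast (by linarith : x ≠ 0)
  have ha' := right_ne_zero_of_mul ha
  have hb' := right_ne_zero_of_mul hb
  have hsum : ∑ j, s x j = KK τ (z x) := by
    simp only [hz]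
    rw [KK_esy (L x) fun j => sub_ne hτ (lam_lt hτ (hpos x hx j))]
    refine Finset.sum_congr rfl fun j _ => ?_
    exact (cay_lam hτ (hpos x hx j).le).symm
  rw [hsum]
  have e5 : (esy fun j => lam τ (s (x : ℂ) j)) = z x := rfl
  rw [e5, KK, KK]
  field_simp
  ring

end Pool.Agent.X197.BKN
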