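import Pool.Agent.X197.BK.Sp

set_option autoImplicit false

namespace Pool.Agent.X197.BKN

open Metric Set Filter Topology Pool.Agent.X197.BK

theorem slice_exists {n : ℕ} (k0 : Fin n) (y : Fin n → ℝ) (w : Fin n → ℂ)
    (hw : ∀ j, 0 < (w j).re) : ∃ s : ℂ → Fin n → ℂ,
      (∀ j, DifferentiableOn ℂ (fun z => s z j) {z | 0 < z.re}) ∧
      (∀ z : ℂ, 0 < z.re → ∀ j, 0 < (s z j).re) ∧ (∀ z, s z k0 = z) ∧
      (∀ j, j ≠ k0 → ∃ C : ℝ, ∀ x : ℝ, 1 ≤ x → ‖s x j - y j * Complex.I‖ ≤ C / x) ∧
      s (w k0) = w := by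
  -- constants
  set u : Fin n → ℂ := fun j => w j - y j * Complex.I with hu
  have hure : ∀ j, 0 < (u j).re := fun j => by simpa [hu] using hw j
  have hune : ∀ j, u j ≠ 0 := by
    intro j h
    have := hure j
    rw [h] at this
    simp at this
  have huinv : ∀ j, 0 < ((u j)⁻¹).re := by
    intro j
    rw [Complex.inv_re]
    exact div_pos (hure j) (Complex.normSq_pos.2 (hune j))
  set c : Fin n → ℝ := fun j => (w k0).re / ((u j)⁻¹).re with hc
  have hcpos : ∀ j, 0 < c j := fun j => div_pos (hw k0) (huinv j)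
  set κ : Fin n → ℂ := fun j => c j / u j - w k0 with hκ
  have hκre : ∀ j, (κ j).re = 0 := by
    intro j
    have : (κ j).re = c j * ((u j)⁻¹).re - (w k0).re := by
      simp only [hκ]
      rw [Complex.sub_re, div_eq_mul_inv, Complex.re_ofReal_mul]
    rw [this]
    simp only [hc]
    rw [div_mul_cancel₀ _ (huinv j).ne', sub_self]
  have hne : ∀ j (z : ℂ), 0 < z.re → z + κ j ≠ 0 := by
    intro j z hz h
    have := congrArg Complex.re h
    rw [Complex.add_re, hκre] at this
    simp at this
    linarith
  refine ⟨fun z j => if j = k0 then z else y j * Complex.I + c j / (z + κ j), ?_, ?_, ?_, ?_, ?_⟩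
  · intro j
    by_cases h : j = k0
    · simp only [h, if_true]
      fun_prop
    · simp only [h, if_false]
      refine DifferentiableOn.const_add _ ?_
      apply DifferentiableOn.div
      · fun_prop
      · fun_prop
      · intro z hz
        exact hne j z hz
  · intro z hz j
    by_cases h : j = k0
    · simp only [h, if_true]
      exact hz
    · simp only [h, if_false]
      have h1 : 0 < (z + κ j).re := by rw [Complex.add_re, hκre]; simpa using hz
      have h2 : ((c j : ℂ) / (z + κ j)).re = c j * (z + κ j).re / Complex.normSq (z + κ j) := by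
        rw [div_eq_mul_inv, Complex.re_ofReal_mul, Complex.inv_re]
        ring
      rw [Complex.add_re, h2]
      have h3 := Complex.normSq_pos.2 (hne j z hz)
      have h4 := hcpos j
      have h5 : (y j * Complex.I : ℂ).re = 0 := by simp
      rw [h5, zero_add]
      positivity
  · intro z
    simp
  · intro j h
    refine ⟨c j, fun x hx => ?_⟩
    have hx0 : 0 < x := by linarith
    simp only [h, if_false]
    rw [add_sub_cancel_left, norm_div, Complex.norm_real, Real.norm_eq_abs,
      abs_of_pos (hcpos j)]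
    refine div_le_div_of_nonneg_left (hcpos j).le hx0 ?_
    have h1 : x = ((x : ℂ) + κ j).re := by rw [Complex.add_re, hκre]; simp
    calc x = ((x : ℂ) + κ j).re := h1
      _ ≤ |((x : ℂ) + κ j).re| := le_abs_self _
      _ ≤ _ := Complex.abs_re_le_norm _
  · funext j
    by_cases h : j = k0
    · simp [h]
    · simp only [h, if_false]
      have h1 : w k0 + κ j = c j / u j := by simp only [hκ]; ring
      rw [h1]
      have h2 : (c j : ℂ) ≠ 0 := by exact_mod_cast (hcpos j).ne'
      have h3 := hune j
      rw [div_div_eq_mul_div, mul_div_assoc, mul_comm]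
      simp only [hu] at h3 ⊢
      field_simp
      ring

theorem slices {n : ℕ} (X : (Fin n → ℂ) → ℂ) (k0 : Fin n) (y : Fin n → ℝ)
    (sym : ∀ (σ : Equiv.Perm (Fin n)) (w : Fin n → ℂ), (∀ j, 0 < (w j).re) →
      X (fun j => w (σ j)) = X w)
    (hol : ∀ s : ℂ → Fin n → ℂ, (∀ j, DifferentiableOn ℂ (fun z => s z j) {z | 0 < z.re}) →
      (∀ z : ℂ, 0 < z.re → ∀ j, 0 < (s z j).re) →
      DifferentiableOn ℂ (fun z => X (s z)) {z | 0 < z.re})
    (pos : ∀ w : Fin n → ℂ, (∀ j, 0 < (w j).re) → 0 ≤ (X w).re)
    (bk : ∀ s : ℂ → Fin n → ℂ, (∀ z : ℂ, 0 < z.re → ∀ j, 0 < (s z j).re) → (∀ z, s z k0 = z) →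
      (∀ j, j ≠ k0 → ∃ C : ℝ, ∀ x : ℝ, 1 ≤ x → ‖s x j - y j * Complex.I‖ ≤ C / x) →
      Tendsto (fun x : ℝ => (x : ℂ) * (X (s x) - ∑ j, s x j)) atTop (𝓝 0)) :
    ∀ w : Fin n → ℂ, (∀ j, 0 < (w j).re) → X w = ∑ j, w j := by
  have hinv : Tendsto (fun x : ℝ => ((x : ℂ))⁻¹) atTop (𝓝 0) := by
    have := tendsto_inv_atTop_zero (𝕜 := ℝ)
    have h2 : Tendsto (fun x : ℝ => ((x⁻¹ : ℝ) : ℂ)) atTop (𝓝 ((0 : ℝ) : ℂ)) :=
      (Complex.continuous_ofReal.tendsto 0).comp this
    simpa using h2
  -- claims by cardinality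
  have claim : ∀ m : ℕ, ∀ A : Finset (Fin n), A.card = m → ∀ w : Fin n → ℂ,
      (∀ j, 0 < (w j).re) → ∑ j ∈ A, (w j).re ≤ (X w).re := by
    intro m
    induction m with
    | zero =>
      intro A hA w hw
      rw [Finset.card_eq_zero] at hA
      rw [hA, Finset.sum_empty]
      exact pos w hw
    | succ m ih =>
      -- the case k0 ∈ A
      have main : ∀ A : Finset (Fin n), A.card = m + 1 → k0 ∈ A → ∀ w : Fin n → ℂ,
          (∀ j, 0 < (w j).re) → ∑ j ∈ A, (w j).re ≤ (X w).re := by
        intro A hA hk w hw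
        obtain ⟨s, hsd, hsp, hsk, hsj, hsw⟩ := slice_exists k0 y w hw
        set B := A.erase k0 with hB
        have hBc : B.card = m := by rw [hB, Finset.card_erase_of_mem hk, hA]; rfl
        have hd : DifferentiableOn ℂ (fun z => X (s z) - ∑ j ∈ B, s z j) {z | 0 < z.re} :=
          (hol s hsd hsp).sub (DifferentiableOn.fun_sum fun j _ => hsd j)
        have hp : ∀ z : ℂ, 0 < z.re → 0 ≤ (X (s z) - ∑ j ∈ B, s z j).re := by
          intro z hz
          rw [Complex.sub_re, Complex.re_sum]
          have := ih B hBc (s z) (hsp z hz)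
          linarith
        have hlim : Tendsto (fun x : ℝ => (X (s x) - ∑ j ∈ B, s x j) / x) atTop
            (𝓝 ((1 : ℝ) : ℂ)) := by
          -- X(s x) - sum over B = (X - all) + x + sum over the rest
          have h1 := bk s hsp hsk hsj
          have h2 : ∀ j, j ≠ k0 → Tendsto (fun x : ℝ => s x j / x) atTop (𝓝 0) := by
            intro j hj
            obtain ⟨C, hC⟩ := hsj j hj
            rw [tendsto_zero_iff_norm_tendsto_zero]
            have h3 : Tendsto (fun x : ℝ => (|C| + |y j|) * x⁻¹) atTop (𝓝 ((|C| + |y j|) * 0)) :=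
              tendsto_inv_atTop_zero.const_mul _
            rw [mul_zero] at h3
            refine squeeze_zero' (Eventually.of_forall fun _ => norm_nonneg _) ?_ h3
            filter_upwards [eventually_ge_atTop (1 : ℝ)] with x hx
            have hx0 : 0 < x := by linarith
            rw [norm_div, Complex.norm_real, Real.norm_eq_abs, abs_of_pos hx0, div_eq_mul_inv]
            refine mul_le_mul_of_nonneg_right ?_ (by positivity)
            have h4 : ‖s x j‖ ≤ ‖s x j - y j * Complex.I‖ + ‖(y j * Complex.I : ℂ)‖ := by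
              have := norm_add_le (s x j - y j * Complex.I) (y j * Complex.I)
              simpa using this
            have h5 : ‖(y j * Complex.I : ℂ)‖ = |y j| := by simp
            have h6 : C / x ≤ |C| := by
              rw [div_le_iff₀ hx0]
              nlinarith [le_abs_self C, abs_nonneg C]
            have h7 := hC x hx
            rw [h5] at h4
            linarith
          have h3 : Tendsto (fun x : ℝ => ((x : ℂ) * (X (s x) - ∑ j, s x j)) *
              ((x : ℂ)⁻¹) ^ 2 + (1 + ∑ j ∈ Finset.univ \ A, s x j / x)) atTop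
              (𝓝 (0 * 0 ^ 2 + (1 + ∑ j ∈ Finset.univ \ A, (0 : ℂ)))) := by
            refine (h1.mul (hinv.pow 2)).add (tendsto_const_nhds.add ?_)
            refine tendsto_finset_sum _ fun j hj => h2 j ?_
            rw [Finset.mem_sdiff] at hj
            exact fun h => hj.2 (h ▸ hk)
          simp only [zero_mul, Finset.sum_const_zero, add_zero, zero_add] at h3
          have h4 : ((1 : ℝ) : ℂ) = 1 := by simp
          rw [h4]
          refine h3.congr' ?_
          filter_upwards [eventually_gt_atTop (0 : ℝ)] with x hx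
          have hx0 : (x : ℂ) ≠ 0 := by exact_mod_cast hx.ne'
          have e1 : ∑ j, s x j = (x + ∑ j ∈ B, s x j) + ∑ j ∈ Finset.univ \ A, s x j := by
            rw [← Finset.sum_sdiff (Finset.subset_univ A), add_comm]
            congr 1
            rw [hB, ← Finset.add_sum_erase A _ hk, hsk]
          rw [e1, ← Finset.sum_div]
          field_simp
          ring
        have hjw := jw hd hp one_pos hlim (w := w k0) (hw k0)
        rw [hsw, Complex.sub_re, Complex.re_sum, one_mul] at hjw
        have e2 : ∑ j ∈ A, (w j).re = (w k0).re + ∑ j ∈ B, (w j).re := by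
          rw [hB, Finset.add_sum_erase A (fun j => (w j).re) hk]
        rw [e2]
        linarith
      intro A hA w hw
      obtain ⟨a, ha⟩ : A.Nonempty := by
        rw [← Finset.card_pos, hA]
        omega
      set σ : Equiv.Perm (Fin n) := Equiv.swap a k0 with hσ
      set A' : Finset (Fin n) := A.map σ.toEmbedding with hA'
      have h1 : A'.card = m + 1 := by rw [hA', Finset.card_map, hA]
      have h2 : k0 ∈ A' := by
        rw [hA', Finset.mem_map]
        exact ⟨a, ha, by simp [hσ]⟩
      have h3 := main A' h1 h2 (fun j => w (σ j)) fun j => hw _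
      rw [sym σ w hw] at h3
      rw [hA', Finset.sum_map] at h3
      have h4 : ∀ j, σ (σ j) = j := by
        intro j
        simp [hσ]
      simpa [h4] using h3
  intro w hw
  obtain ⟨s, hsd, hsp, hsk, hsj, hsw⟩ := slice_exists k0 y w hw
  have hd : DifferentiableOn ℂ (fun z => X (s z) - ∑ j, s z j) {z | 0 < z.re} :=
    (hol s hsd hsp).sub (DifferentiableOn.fun_sum fun j _ => hsd j)
  have hp : ∀ z : ℂ, 0 < z.re → 0 ≤ (X (s z) - ∑ j, s z j).re := by
    intro z hz
    rw [Complex.sub_re, Complex.re_sum]
    have := claim _ Finset.univ rfl (s z) (hsp z hz)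
    linarith
  have := hopf hd hp (bk s hsp hsk hsj) (w := w k0) (hw k0)
  rw [hsw] at this
  exact sub_eq_zero.1 this

end Pool.Agent.X197.BKN
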