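import Pool.Agent.X197.BK.N2
import Pool.Agent.X197.BK.N3

set_option autoImplicit false

namespace Pool.Agent.X197.BKN

open Metric Set Filter Topology Asymptotics Pool.Agent.X197.BK

theorem esy_perm {n : ℕ} (σ : Equiv.Perm (Fin n)) (l : Fin n → ℂ) :
    esy (fun j => l (σ j)) = esy l := by
  funext k
  have h1 : ∀ f : Fin n → ℂ, esy f k = (Finset.univ.val.map f).esymm ((k : ℕ) + 1) := by
    intro f
    rw [Finset.esymm_map_val]
    rfl
  have h2 : (Finset.univ : Finset (Fin n)).val.map (fun j => l (σ j)) =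
      (Finset.univ : Finset (Fin n)).val.map l := by
    have h3 : (Finset.univ : Finset (Fin n)).val.map σ = (Finset.univ : Finset (Fin n)).val := by
      have := congrArg Finset.val (Finset.map_univ_equiv σ)
      simpa using this
    conv_rhs => rw [← h3, Multiset.map_map]
    rfl
  rw [h1, h1, h2]

theorem re_zero {a b : ℂ} (ha : ‖a‖ = 1) (hb : ‖b‖ = 1) : ((a + b) / (a - b)).re = 0 := by
  have h : ((a + b) / (a - b)).re = (Complex.normSq a - Complex.normSq b) /
      Complex.normSq (a - b) := by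
    rw [Complex.div_re, ← add_div]
    congr 1
    simp only [Complex.normSq_apply, Complex.add_re, Complex.sub_re, Complex.add_im,
      Complex.sub_im]
    ring
  rw [h, Complex.normSq_eq_norm_sq, Complex.normSq_eq_norm_sq, ha, hb]
  simp

theorem re_pos {a b : ℂ} (ha : ‖a‖ = 1) (hb : ‖b‖ < 1) : 0 < ((a + b) / (a - b)).re := by
  have h : ((a + b) / (a - b)).re = (Complex.normSq a - Complex.normSq b) /
      Complex.normSq (a - b) := by
    rw [Complex.div_re, ← add_div]
    congr 1
    simp only [Complex.normSq_apply, Complex.add_re, Complex.sub_re, Complex.add_im,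
      Complex.sub_im]
    ring
  rw [h, Complex.normSq_eq_norm_sq, Complex.normSq_eq_norm_sq, ha]
  have h1 : 0 < Complex.normSq (a - b) := Complex.normSq_pos.2 (sub_ne ha hb)
  have h2 : ‖b‖ ^ 2 < 1 := by nlinarith [norm_nonneg b]
  exact div_pos (by linarith) h1

theorem PP_ne {n : ℕ} {τ : ℂ} (hτ : ‖τ‖ = 1) {z : Fin n → ℂ} (hz : z ∈ Gn n) : PP z τ ≠ 0 := by
  obtain ⟨l, hl, rfl⟩ := hz
  rw [PP_esy]
  exact Finset.prod_ne_zero_iff.2 fun j _ => sub_ne hτ (hl j)

/-- the magic functions of the coordinates of the boundary point are preserved -/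
theorem magic {n : ℕ} (F : (Fin n → ℂ) → Fin n → ℂ) (hF : DifferentiableOn ℂ F (Gn n))
    (hm : MapsTo F (Gn n) (Gn n)) (T : Fin n → ℂ) (hT : ∀ j, ‖T j‖ = 1)
    (hTi : Function.Injective T)
    (ho : (fun z => F z - z) =o[𝓝[Gn n] (esy T)] (fun z => ‖z - esy T‖ ^ 3)) (k0 : Fin n)
    (l : Fin n → ℂ) (hl : ∀ j, ‖l j‖ < 1) : KK (T k0) (F (esy l)) = KK (T k0) (esy l) := by
  set τ : ℂ := T k0 with hτdef
  have hτ : ‖τ‖ = 1 := hT k0
  set X : (Fin n → ℂ) → ℂ := fun w => KK τ (F (esy fun j => lam τ (w j))) with hX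
  have hG : ∀ w : Fin n → ℂ, (∀ j, 0 < (w j).re) → (esy fun j => lam τ (w j)) ∈ Gn n :=
    fun w hw => ⟨fun j => lam τ (w j), fun j => lam_lt hτ (hw j), rfl⟩
  have hKd : DifferentiableOn ℂ (KK τ) (Gn n) := by
    unfold KK
    refine DifferentiableOn.sub_const ?_ _
    simp only [div_eq_mul_inv]
    refine DifferentiableOn.mul ?_ ?_
    · unfold DP
      fun_prop
    · intro z hz
      have h2 : DifferentiableWithinAt ℂ (fun w : Fin n → ℂ => PP w τ) (Gn n) z := by
        unfold PP
        fun_prop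
      exact (differentiableAt_inv (PP_ne hτ hz)).comp_differentiableWithinAt z h2
  have key := slices X k0 (fun j => ((T k0 + T j) / (T k0 - T j)).im) ?_ ?_ ?_ ?_
  · have hw : ∀ j, 0 < ((τ + l j) / (τ - l j)).re := fun j => re_pos hτ (hl j)
    have h1 := key (fun j => (τ + l j) / (τ - l j)) hw
    have h2 : (esy fun j => lam τ ((τ + l j) / (τ - l j))) = esy l := by
      congr 1
      funext j
      exact lam_cay hτ (sub_ne hτ (hl j))
    simp only [hX] at h1
    rw [h2] at h1
    rw [h1, KK_esy l fun j => sub_ne hτ (hl j)]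
  · intro σ w _
    simp only [hX]
    rw [esy_perm σ (fun j => lam τ (w j))]
  · intro s hsd hsp
    have h1 : DifferentiableOn ℂ (fun z => esy fun j => lam τ (s z j)) {z | 0 < z.re} := by
      refine diff_esy.comp_differentiableOn (differentiableOn_pi.2 fun j => ?_)
      unfold lam
      refine DifferentiableOn.const_mul ?_ _
      apply DifferentiableOn.div
      · exact (hsd j).sub_const _
      · exact (hsd j).add_const _
      · intro z hz
        exact add_one_ne (hsp z hz j).le
    exact hKd.comp (hF.comp h1 fun z hz => hG _ (hsp z hz)) fun z hz => hm (hG _ (hsp z hz))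
  · intro w hw
    obtain ⟨l', hl', he⟩ := hm (hG w hw)
    simp only [hX]
    rw [he, KK_esy l' fun j => sub_ne hτ (hl' j), Complex.re_sum]
    exact Finset.sum_nonneg fun j _ => (re_pos hτ (hl' j)).le
  · intro s hsp hsk hsj
    refine asym F T hT hTi ho k0 _ ?_ s hsp hsk hsj
    intro j hj
    apply Complex.ext
    · rw [re_zero (hT k0) (hT j)]
      simp
    · simp

theorem fix_of_det {n : ℕ} (F : (Fin n → ℂ) → Fin n → ℂ) (hF : DifferentiableOn ℂ F (Gn n))
    (hm : MapsTo F (Gn n) (Gn n)) (T : Fin n → ℂ) (hT : ∀ j, ‖T j‖ = 1)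
    (hTi : Function.Injective T)
    (ho : (fun z => F z - z) =o[𝓝[Gn n] (esy T)] (fun z => ‖z - esy T‖ ^ 3))
    (l : Fin n → ℂ) (hl : ∀ j, ‖l j‖ < 1) (hdet : (MM T (esy l)).det ≠ 0) :
    F (esy l) = esy l := by
  refine uniq T (esy l) (F (esy l)) hdet fun k => ?_
  have h := magic F hF hm T hT hTi ho k l hl
  have hz : esy l ∈ Gn n := ⟨l, hl, rfl⟩
  have h1 := PP_ne (hT k) hz
  have h2 := PP_ne (hT k) (hm hz)
  have h0 : T k ≠ 0 := by intro h; have := hT k; rw [h] at this; simp at this
  rw [KK, KK, sub_left_inj, div_eq_div_iff h2 h1] at h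
  have h3 : (2 * T k) * (DP (F (esy l)) (T k) * PP (esy l) (T k)) =
      (2 * T k) * (DP (esy l) (T k) * PP (F (esy l)) (T k)) := by
    linear_combination h
  exact mul_left_cancel₀ (mul_ne_zero two_ne_zero h0) h3

theorem cont_det {n : ℕ} (T : Fin n → ℂ) :
    Continuous fun l : Fin n → ℂ => (MM T (esy l)).det := by
  refine Continuous.matrix_det ?_
  refine continuous_matrix fun k i => ?_
  have h := (diff_esy (n := n)).continuous
  have h1 : Continuous fun w : Fin n → ℂ => DP w (T k) := by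
    unfold DP
    fun_prop
  have h2 : Continuous fun w : Fin n → ℂ => PP w (T k) := by
    unfold PP
    fun_prop
  have h3 := h1.comp h
  have h4 := h2.comp h
  exact (h3.mul continuous_const).sub (h4.mul continuous_const)

/-- Burns-Krantz rigidity of the symmetrized polydisc at the points of the Shilov boundary with
distinct coordinates -/
theorem main {n : ℕ} (F : (Fin n → ℂ) → Fin n → ℂ) (hF : DifferentiableOn ℂ F (Gn n))
    (hm : MapsTo F (Gn n) (Gn n)) (T : Fin n → ℂ) (hT : ∀ j, ‖T j‖ = 1)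
    (hTi : Function.Injective T)
    (ho : (fun z => F z - z) =o[𝓝[Gn n] (esy T)] (fun z => ‖z - esy T‖ ^ 3)) :
    ∀ z ∈ Gn n, F z = z := by
  rintro z ⟨l, hl, rfl⟩
  -- a good interior point
  obtain ⟨r, hr0, hr1, hrd⟩ : ∃ r : ℝ, 0 < r ∧ r < 1 ∧
      (MM T (esy fun j => (r : ℂ) * T j)).det ≠ 0 := by
    have hc : Continuous fun r : ℝ => (MM T (esy fun j => (r : ℂ) * T j)).det :=
      (cont_det T).comp (by fun_prop)
    have h1 : (MM T (esy fun j => ((1 : ℝ) : ℂ) * T j)).det ≠ 0 := by
      have : (fun j => ((1 : ℝ) : ℂ) * T j) = T := by funext j; simp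
      rw [this]
      exact det_ne T hTi
    have h2 : ∀ᶠ r : ℝ in 𝓝[<] 1, (MM T (esy fun j => (r : ℂ) * T j)).det ≠ 0 :=
      nhdsWithin_le_nhds (hc.continuousAt.eventually_ne h1)
    have h3 : ∀ᶠ r : ℝ in 𝓝[<] 1, 0 < r := nhdsWithin_le_nhds (lt_mem_nhds zero_lt_one)
    obtain ⟨r, h4, h5, h6⟩ := (h2.and (h3.and self_mem_nhdsWithin)).exists
    exact ⟨r, h5, h6, h4⟩
  set l0 : Fin n → ℂ := fun j => (r : ℂ) * T j with hl0
  have hl0n : ∀ j, ‖l0 j‖ < 1 := by
    intro j
    simp only [hl0]
    rw [norm_mul, hT, mul_one, Complex.norm_real, Real.norm_eq_abs, abs_of_pos hr0]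
    exact hr1
  set L : ℂ → Fin n → ℂ := fun t j => l0 j + t * (l j - l0 j) with hL
  have hLd : Differentiable ℂ L := differentiable_pi.2 fun j => by fun_prop
  set U : Set ℂ := {t | ∀ j, ‖L t j‖ < 1} with hU
  have hUo : IsOpen U := by
    have : U = ⋂ j, {t | ‖L t j‖ < 1} := by
      ext t
      simp [hU]
    rw [this]
    refine isOpen_iInter_of_finite fun j => isOpen_lt ?_ continuous_const
    fun_prop
  have hUc : Convex ℝ U := by
    intro s hs t ht a b ha hb hab j
    have e : L (a • s + b • t) j = a • L s j + b • L t j := by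
      have : (a : ℂ) + b = 1 := by exact_mod_cast hab
      simp only [hL, Complex.real_smul]
      linear_combination (-(l0 j)) * this
    rw [e]
    have h1 := hs j
    have h2 := ht j
    calc ‖a • L s j + b • L t j‖ ≤ ‖a • L s j‖ + ‖b • L t j‖ := norm_add_le _ _
      _ = a * ‖L s j‖ + b * ‖L t j‖ := by
        rw [norm_smul, norm_smul, Real.norm_eq_abs, Real.norm_eq_abs, abs_of_nonneg ha,
          abs_of_nonneg hb]
      _ < 1 := by
        rcases ha.eq_or_lt with h | h
        · have hb1 : b = 1 := by linarith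
          rw [← h, hb1]
          linarith
        · nlinarith
  have h0U : (0 : ℂ) ∈ U := fun j => by simpa [hL] using hl0n j
  have h1U : (1 : ℂ) ∈ U := fun j => by simpa [hL] using hl j
  have hmaps : ∀ t ∈ U, esy (L t) ∈ Gn n := fun t ht => ⟨L t, ht, rfl⟩
  have hloc : ∀ᶠ t in 𝓝 (0 : ℂ), F (esy (L t)) = esy (L t) := by
    have hc : Continuous fun t : ℂ => (MM T (esy (L t))).det := (cont_det T).comp hLd.continuous
    have h1 : (MM T (esy (L 0))).det ≠ 0 := by
      have : L 0 = l0 := by funext j; simp [hL]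
      rw [this]
      exact hrd
    filter_upwards [hc.continuousAt.eventually_ne h1, hUo.mem_nhds h0U] with t h2 h3
    exact fix_of_det F hF hm T hT hTi ho (L t) h3 h2
  funext k
  have hgd : DifferentiableOn ℂ (fun t => F (esy (L t)) k - esy (L t) k) U := by
    have h1 : DifferentiableOn ℂ (fun t => esy (L t)) U :=
      (diff_esy.comp hLd).differentiableOn
    have h2 : DifferentiableOn ℂ (fun t => F (esy (L t))) U := hF.comp h1 hmaps
    exact (differentiableOn_pi.1 h2 k).sub (differentiableOn_pi.1 h1 k)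
  have han := hgd.analyticOnNhd hUo
  have hz := han.eqOn_zero_of_preconnected_of_eventuallyEq_zero hUc.isPreconnected h0U (by
    filter_upwards [hloc] with t ht
    rw [ht]
    simp)
  have h1 := hz h1U
  have hL1 : L 1 = l := by funext j; simp [hL]
  simp only [hL1, Pi.zero_apply] at h1
  exact sub_eq_zero.1 h1

end Pool.Agent.X197.BKN
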