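import Pool.Agent.X197.BK.Sp

set_option autoImplicit false

namespace Pool.Agent.X197.BK

open Metric Set Filter Topology

theorem re_harm {a b : ℂ} (ha : 0 < a.re) (hb : 0 < b.re) : 0 ≤ (a * b / (a + b)).re := by
  have h1 : (a * b / (a + b)).re =
      (‖a‖ ^ 2 * b.re + ‖b‖ ^ 2 * a.re) / ‖a + b‖ ^ 2 := by
    simp only [Complex.div_re, ← Complex.normSq_eq_norm_sq, Complex.add_re, Complex.mul_re,
      Complex.add_im, Complex.mul_im]
    rw [← add_div]
    congr 1
    simp only [Complex.normSq_apply]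
    ring
  rw [h1]
  positivity

/-- the basic inequality -/
theorem basic {Y : ℂ → ℂ → ℂ}
    (dom : ∀ w1 w2 : ℂ, 0 < w1.re → 0 < w2.re → ∃ u1 u2 : ℂ, 0 < u1.re ∧ 0 < u2.re ∧
      u1 + u2 = w1 + w2 ∧ u1 * u2 = Y w1 w2) {w1 w2 : ℂ} (h1 : 0 < w1.re) (h2 : 0 < w2.re) :
    0 ≤ ((Y w1 w2 - w1 * w2 + w1.re * (w2 - w1.im * Complex.I)) /
      (w2 + (starRingEnd ℂ) w1)).re := by
  obtain ⟨u1, u2, hu1, hu2, hs, hp⟩ := dom w1 w2 h1 h2
  have ha : 0 < (u1 - w1.im * Complex.I).re := by simpa using hu1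
  have hb : 0 < (u2 - w1.im * Complex.I).re := by simpa using hu2
  have h := re_harm ha hb
  have e0 : w1 = w1.re + w1.im * Complex.I := (Complex.re_add_im w1).symm
  have ec : (starRingEnd ℂ) w1 = w1.re - w1.im * Complex.I := by
    apply Complex.ext <;> simp
  have e1 : (u1 - w1.im * Complex.I) * (u2 - w1.im * Complex.I) =
      Y w1 w2 - w1 * w2 + w1.re * (w2 - w1.im * Complex.I) := by
    have : (u1 - w1.im * Complex.I) * (u2 - w1.im * Complex.I) =
      u1 * u2 - w1.im * Complex.I * (u1 + u2) + (w1.im * Complex.I) ^ 2 := by ring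
    rw [this, hp, hs]
    have e2 : (w1.re : ℂ) = w1 - w1.im * Complex.I := by rw [eq_sub_iff_add_eq]; exact e0.symm
    rw [e2]
    ring
  have e3 : (u1 - w1.im * Complex.I) + (u2 - w1.im * Complex.I) = w2 + (starRingEnd ℂ) w1 := by
    have e2 : (w1.re : ℂ) = w1 - w1.im * Complex.I := by rw [eq_sub_iff_add_eq]; exact e0.symm
    rw [ec, e2]
    linear_combination hs
  rw [e1, e3] at h
  exact h

/-- second part: from one slice to all slices -/
theorem stage2b {Y : ℂ → ℂ → ℂ}
    (hol : ∀ w2 : ℂ, 0 < w2.re → DifferentiableOn ℂ (fun w1 => Y w1 w2) {w | 0 < w.re})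
    (sym : ∀ w1 w2 : ℂ, 0 < w1.re → 0 < w2.re → Y w1 w2 = Y w2 w1)
    (dom : ∀ w1 w2 : ℂ, 0 < w1.re → 0 < w2.re → ∃ u1 u2 : ℂ, 0 < u1.re ∧ 0 < u2.re ∧
      u1 + u2 = w1 + w2 ∧ u1 * u2 = Y w1 w2)
    (h1 : ∀ w1 : ℂ, 0 < w1.re → Y w1 1 = w1) :
    ∀ w1 w2 : ℂ, 0 < w1.re → 0 < w2.re → Y w1 w2 = w1 * w2 := by
  intro z w2 hz h2
  set Q : ℝ := ‖w2 + 1‖ ^ 2 / w2.re with hQ
  have hQ0 : 0 ≤ Q := by positivity
  -- the bound
  have bd : ∀ w1 : ℂ, 0 < w1.re →
      ‖Y w1 w2 - w1 * w2‖ ≤ w1.re * ((Q + 2) * (‖w2‖ + ‖w1‖)) := by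
    intro w1 hw1
    set R : ℂ → ℂ := fun w => (Y w1 w - w1 * w + w1.re * (w - w1.im * Complex.I)) /
      (w + (starRingEnd ℂ) w1) with hR
    have hRd : DifferentiableOn ℂ R {w | 0 < w.re} := by
      apply DifferentiableOn.div
      · have : DifferentiableOn ℂ (fun w => Y w1 w) {w | 0 < w.re} :=
          (hol w1 hw1).congr fun w hw => sym w1 w hw1 hw
        fun_prop
      · fun_prop
      · intro w hw
        exact den_ne hw hw1.le
    have hR0 : ∀ w : ℂ, 0 < w.re → 0 ≤ (R w).re := fun w hw => basic dom hw1 hw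
    have hh := harn hRd hR0 h2 (z := 1) (by simp)
    have hQ' : ‖w2 + (starRingEnd ℂ) 1‖ ^ 2 / (w2.re * (1 : ℂ).re) = Q := by simp [hQ]
    rw [hQ'] at hh
    have hne1 := den_ne (a := 1) (b := w1) (by simp) hw1.le
    have hR1 : ‖R 1‖ ≤ w1.re := by
      have e1 : R 1 = w1.re * ((1 - w1.im * Complex.I) / (1 + (starRingEnd ℂ) w1)) := by
        simp only [hR]
        rw [h1 w1 hw1]
        ring
      rw [e1, norm_mul, Complex.norm_real, Real.norm_eq_abs, abs_of_pos hw1]
      have e2 : ‖(1 - w1.im * Complex.I) / (1 + (starRingEnd ℂ) w1)‖ ≤ 1 := by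
        rw [norm_div, div_le_one (norm_pos_iff.2 hne1)]
        refine le_of_sq_le_sq ?_ (norm_nonneg _)
        simp only [← Complex.normSq_eq_norm_sq, Complex.normSq_apply, Complex.sub_re,
          Complex.sub_im, Complex.add_re, Complex.add_im, Complex.mul_re, Complex.mul_im,
          Complex.conj_re, Complex.conj_im, Complex.one_re, Complex.one_im, Complex.I_re,
          Complex.I_im, Complex.ofReal_re, Complex.ofReal_im]
        nlinarith
      calc _ ≤ w1.re * 1 := mul_le_mul_of_nonneg_left e2 hw1.le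
        _ = _ := mul_one _
    have hne2 := den_ne h2 hw1.le
    have e3 : Y w1 w2 - w1 * w2 = R w2 * (w2 + (starRingEnd ℂ) w1) -
        w1.re * (w2 - w1.im * Complex.I) := by
      simp only [hR]
      rw [div_mul_cancel₀ _ hne2]
      ring
    rw [e3]
    have n1 : ‖w2 + (starRingEnd ℂ) w1‖ ≤ ‖w2‖ + ‖w1‖ := by
      refine (norm_add_le _ _).trans ?_
      rw [RCLike.norm_conj]
    have n2 : ‖w2 - w1.im * Complex.I‖ ≤ ‖w2‖ + ‖w1‖ := by
      refine (norm_sub_le _ _).trans ?_
      rw [norm_mul, Complex.norm_I, mul_one, Complex.norm_real, Real.norm_eq_abs]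
      linarith [Complex.abs_im_le_norm w1]
    have n3 : ‖R w2‖ ≤ (Q + 1) * w1.re := hh.trans (mul_le_mul_of_nonneg_left hR1 (by positivity))
    calc ‖R w2 * (w2 + (starRingEnd ℂ) w1) - w1.re * (w2 - w1.im * Complex.I)‖
        ≤ ‖R w2‖ * ‖w2 + (starRingEnd ℂ) w1‖ + w1.re * ‖w2 - w1.im * Complex.I‖ := by
          refine (norm_sub_le _ _).trans ?_
          rw [norm_mul, norm_mul, Complex.norm_real, Real.norm_eq_abs, abs_of_pos hw1]
      _ ≤ (Q + 1) * w1.re * (‖w2‖ + ‖w1‖) + w1.re * (‖w2‖ + ‖w1‖) := by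
          refine add_le_add (mul_le_mul n3 n1 (norm_nonneg _) (by positivity))
            (mul_le_mul_of_nonneg_left n2 hw1.le)
      _ = _ := by ring
  -- the function
  set f : ℂ → ℂ := fun w => if 0 < w.re then (Y w w2 - w * w2) / (w + 1) ^ 2 else 0 with hf
  set M : ℝ := (Q + 2) * (‖w2‖ + 1) with hM
  have hM0 : 0 ≤ M := by positivity
  have hw1n : ∀ w : ℂ, 0 ≤ w.re → ‖w‖ ≤ ‖w + 1‖ ∧ 1 ≤ ‖w + 1‖ ∧ w.re ≤ ‖w + 1‖ := by
    intro w hw
    have e : ‖w + 1‖ ^ 2 = ‖w‖ ^ 2 + 2 * w.re + 1 := by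
      simp only [← Complex.normSq_eq_norm_sq, Complex.normSq_apply, Complex.add_re,
        Complex.add_im, Complex.one_re, Complex.one_im]
      ring
    refine ⟨le_of_sq_le_sq (by nlinarith) (norm_nonneg _), ?_, ?_⟩
    · refine le_of_sq_le_sq ?_ (norm_nonneg _)
      nlinarith [sq_nonneg ‖w‖]
    · have := (le_abs_self _).trans (Complex.abs_re_le_norm (w + 1))
      simp at this
      linarith
  have fb : ∀ w : ℂ, 0 ≤ w.re → ‖f w‖ ≤ M * w.re ∧ ‖f w‖ ≤ M := by
    intro w hw
    obtain ⟨n1, n2, n3⟩ := hw1n w hw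
    rcases hw.eq_or_lt with h0 | h0
    · simp only [hf, ← h0, lt_irrefl, if_false, norm_zero, mul_zero]
      exact ⟨le_rfl, hM0⟩
    · simp only [hf, h0, if_true]
      rw [norm_div, norm_pow]
      have hb := bd w h0
      have hpos : 0 < ‖w + 1‖ := by linarith
      have hb2 : ‖Y w w2 - w * w2‖ ≤ w.re * (M * ‖w + 1‖) := by
        refine hb.trans (mul_le_mul_of_nonneg_left ?_ h0.le)
        rw [hM, mul_assoc]
        refine mul_le_mul_of_nonneg_left ?_ (by positivity)
        nlinarith [norm_nonneg w2]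
      constructor
      · rw [div_le_iff₀ (by positivity)]
        refine hb2.trans ?_
        have : 0 ≤ w.re * M * ‖w + 1‖ * (‖w + 1‖ - 1) :=
          mul_nonneg (by positivity) (by linarith)
        nlinarith
      · rw [div_le_iff₀ (by positivity)]
        refine hb2.trans ?_
        have : w.re * (M * ‖w + 1‖) ≤ ‖w + 1‖ * (M * ‖w + 1‖) :=
          mul_le_mul_of_nonneg_right n3 (by positivity)
        nlinarith
  have hfz : f z = 0 := by
    have hopen : IsOpen {w : ℂ | 0 < w.re} := isOpen_lt continuous_const Complex.continuous_re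
    have hd0 : DifferentiableOn ℂ f {w | 0 < w.re} := by
      have : DifferentiableOn ℂ (fun w => (Y w w2 - w * w2) / (w + 1) ^ 2) {w | 0 < w.re} := by
        apply DifferentiableOn.div
        · exact (hol w2 h2).sub (by fun_prop)
        · fun_prop
        · intro w hw
          have := (hw1n w (le_of_lt hw)).2.1
          have h3 : w + 1 ≠ 0 := by
            intro h0
            rw [h0, norm_zero] at this
            linarith
          exact pow_ne_zero 2 h3
      refine this.congr fun w hw => ?_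
      have hw' : 0 < w.re := hw
      simp only [hf]
      rw [if_pos hw']
    have hcl : closure {w : ℂ | 0 < w.re} ⊆ {w : ℂ | 0 ≤ w.re} :=
      closure_minimal (fun w (hw : 0 < w.re) => show 0 ≤ w.re from le_of_lt hw) (isClosed_le continuous_const Complex.continuous_re)
    have hd : DiffContOnCl ℂ f {w | 0 < w.re} := by
      refine ⟨hd0, fun w hw => ?_⟩
      have hw0 : 0 ≤ w.re := hcl hw
      rcases hw0.eq_or_lt with h0 | h0
      · have hfw : f w = 0 := by
          have := (fb w hw0).1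
          rw [← h0, mul_zero] at this
          exact norm_le_zero_iff.1 this
        rw [ContinuousWithinAt, hfw]
        rw [tendsto_zero_iff_norm_tendsto_zero]
        have hlim : Tendsto (fun w' : ℂ => M * w'.re) (𝓝[closure {w | 0 < w.re}] w) (𝓝 0) := by
          have : Tendsto (fun w' : ℂ => M * w'.re) (𝓝 w) (𝓝 (M * w.re)) :=
            (continuous_const.mul Complex.continuous_re).tendsto w
          rw [← h0, mul_zero] at this
          exact this.mono_left nhdsWithin_le_nhds
        refine squeeze_zero' (Eventually.of_forall fun _ => norm_nonneg _) ?_ hlim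
        exact eventually_of_mem self_mem_nhdsWithin fun w' hw' => (fb w' (hcl hw')).1
      · exact ((hd0.differentiableAt (hopen.mem_nhds h0)).continuousAt).continuousWithinAt
    have := PhragmenLindelof.right_half_plane_of_bounded_on_real (f := f) (C := 0) (z := z) hd
      ⟨1, by norm_num, 0, ?_⟩ ?_ ?_ hz.le
    · exact norm_le_zero_iff.1 this
    · refine Asymptotics.IsBigO.of_bound M ?_
      have h3 : ∀ᶠ w : ℂ in 𝓟 {w : ℂ | 0 < w.re}, w ∈ {w : ℂ | 0 < w.re} :=
        eventually_principal.2 fun w hw => hw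
      filter_upwards [h3.filter_mono inf_le_right] with w hw
      have := (fb w (le_of_lt hw)).2
      simpa using this
    · refine isBoundedUnder_of_eventually_le (a := M) ?_
      filter_upwards [eventually_ge_atTop (0 : ℝ)] with x hx
      exact (fb (x : ℂ) (by simpa using hx)).2
    · intro x
      have := (fb (x * Complex.I) (by simp)).1
      simpa using this
  simp only [hf, hz, if_true] at hfz
  have h3 : z + 1 ≠ 0 := by
    intro h0
    have := (hw1n z hz.le).2.1
    rw [h0, norm_zero] at this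
    linarith
  rw [div_eq_zero_iff] at hfz
  rcases hfz with h | h
  · exact sub_eq_zero.1 h
  · exact absurd h (pow_ne_zero 2 h3)

end Pool.Agent.X197.BK
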