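import Pool.Agent.X197.BK.S2

set_option autoImplicit false

namespace Pool.Agent.X197.BK

open Metric Set Filter Topology

/-- the Cayley transform of the disc -/
noncomputable def cay (z : ℂ) : ℂ := (1 + z) / (1 - z)

theorem one_sub_ne {z : ℂ} (hz : ‖z‖ < 1) : 1 - z ≠ 0 := by
  intro h0
  rw [sub_eq_zero] at h0
  rw [← h0, norm_one] at hz
  exact lt_irrefl _ hz

theorem cay_re (z : ℂ) : (cay z).re = (1 - ‖z‖ ^ 2) / ‖1 - z‖ ^ 2 := by
  simp only [cay, Complex.div_re, ← Complex.normSq_eq_norm_sq, Complex.add_re,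
    Complex.add_im, Complex.sub_re,
    Complex.sub_im, Complex.one_re, Complex.one_im]
  rw [← add_div]
  congr 1
  simp only [Complex.normSq_apply]
  ring

theorem cay_pos {z : ℂ} (hz : ‖z‖ < 1) : 0 < (cay z).re := by
  rw [cay_re]
  have h2 : ‖z‖ ^ 2 < 1 := by nlinarith [norm_nonneg z]
  have h3 : 0 < ‖1 - z‖ := norm_pos_iff.2 (one_sub_ne hz)
  have : 0 < 1 - ‖z‖ ^ 2 := by linarith
  positivity

/-- circle argument -/
theorem circle {d : ℂ → ℂ} (hd : DifferentiableOn ℂ d (ball 0 1))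
    (hin : ∀ z : ℂ, ‖z‖ < 1 → -2 * (cay z).re ≤ (d z * (1 - (starRingEnd ℂ) z)).re)
    {z : ℂ} (hz : ‖z‖ < 1) :
    0 ≤ (d z - dslope d 0 z - (starRingEnd ℂ) (d 0) * z + 2 * cay z).re := by
  have hds : DifferentiableOn ℂ (dslope d 0) (ball 0 1) :=
    (Complex.differentiableOn_dslope (ball_mem_nhds 0 one_pos)).2 hd
  have key : ∀ r : ℝ, ‖z‖ < r → r < 1 →
      0 ≤ (d z - r ^ 2 * dslope d 0 z - (starRingEnd ℂ) (d 0) * z + 2 * cay z).re := by
    intro r hr0 hr1
    have hrpos : 0 < r := (norm_nonneg z).trans_lt hr0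
    set G : ℂ → ℂ := fun z => d z - r ^ 2 * dslope d 0 z - (starRingEnd ℂ) (d 0) * z + 2 * cay z
      with hG
    have hGd : DifferentiableOn ℂ G (ball 0 1) := by
      have hc : DifferentiableOn ℂ cay (ball 0 1) := by
        unfold cay
        apply DifferentiableOn.div
        · fun_prop
        · fun_prop
        · intro ζ hζ
          exact one_sub_ne (by simpa using hζ)
      exact ((hd.sub (hds.const_mul _)).sub (by fun_prop)).add (hc.const_mul _)
    set E : ℂ → ℂ := fun z => Complex.exp (-G z) with hE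
    have hEd : DiffContOnCl ℂ E (ball 0 r) := by
      refine DifferentiableOn.diffContOnCl_ball (U := ball 0 1) hGd.neg.cexp ?_
      exact closedBall_subset_ball hr1
    have hb : ∀ ζ ∈ frontier (ball (0 : ℂ) r), ‖E ζ‖ ≤ 1 := by
      intro ζ hζ
      rw [frontier_ball (0 : ℂ) hrpos.ne', mem_sphere_zero_iff_norm] at hζ
      rw [hE]
      simp only [Complex.norm_exp]
      rw [Real.exp_le_one_iff, Complex.neg_re, neg_nonpos]
      have hζ1 : ‖ζ‖ < 1 := by rw [hζ]; exact hr1
      have hζ0 : ζ ≠ 0 := by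
        intro h0
        rw [h0, norm_zero] at hζ
        exact hrpos.ne hζ
      have h1 := hin ζ hζ1
      have h2 : (G ζ).re = (d ζ * (1 - (starRingEnd ℂ) ζ)).re + 2 * (cay ζ).re := by
        have hsl : dslope d 0 ζ = (d ζ - d 0) / ζ := by
          rw [dslope_of_ne _ hζ0, slope_def_field, sub_zero]
        have hcz : ζ * (starRingEnd ℂ) ζ = (r : ℂ) ^ 2 := by
          rw [Complex.mul_conj, Complex.normSq_eq_norm_sq, hζ]
          push_cast
          rfl
        have e1 : (r : ℂ) ^ 2 * dslope d 0 ζ = (d ζ - d 0) * (starRingEnd ℂ) ζ := by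
          rw [hsl, ← hcz]
          field_simp
        have e2 : G ζ = d ζ * (1 - (starRingEnd ℂ) ζ) + 2 * cay ζ +
            (d 0 * (starRingEnd ℂ) ζ - (starRingEnd ℂ) (d 0) * ζ) := by
          simp only [hG]
          rw [e1]
          ring
        have e3 : (d 0 * (starRingEnd ℂ) ζ - (starRingEnd ℂ) (d 0) * ζ).re = 0 := by
          simp
        rw [e2, Complex.add_re, Complex.add_re, e3]
        simp
      rw [h2]
      linarith
    have hzc : z ∈ closure (ball (0 : ℂ) r) := subset_closure (by simpa using hr0)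
    have := Complex.norm_le_of_forall_mem_frontier_norm_le isBounded_ball hEd hb hzc
    rw [hE] at this
    simp only [Complex.norm_exp] at this
    rw [Real.exp_le_one_iff, Complex.neg_re, neg_nonpos] at this
    exact this
  have hlim : Tendsto (fun r : ℝ =>
      (d z - r ^ 2 * dslope d 0 z - (starRingEnd ℂ) (d 0) * z + 2 * cay z).re) (𝓝[<] 1)
      (𝓝 (d z - ((1 : ℝ) : ℂ) ^ 2 * dslope d 0 z - (starRingEnd ℂ) (d 0) * z + 2 * cay z).re) := by
    refine tendsto_nhdsWithin_of_tendsto_nhds (Continuous.tendsto ?_ 1)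
    exact Complex.continuous_re.comp (by fun_prop)
  have := ge_of_tendsto hlim (by
    filter_upwards [self_mem_nhdsWithin, nhdsWithin_le_nhds (lt_mem_nhds hz)] with r h1 h2
    exact key r h2 h1)
  simpa using this

/-- the first slice -/
theorem stage2a {D : ℂ → ℂ} (hD : DifferentiableOn ℂ D {w | 0 < w.re})
    (hin : ∀ w : ℂ, 0 < w.re → 0 ≤ ((D w + w.re * (1 - w.im * Complex.I)) /
      (1 + (starRingEnd ℂ) w)).re)
    (bk : Tendsto (fun x : ℝ => (x : ℂ) ^ 2 * D x) atTop (𝓝 0)) :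
    ∀ w : ℂ, 0 < w.re → D w = 0 := by
  set d : ℂ → ℂ := fun z => D (cay z) with hd
  have hcayd : DifferentiableOn ℂ cay (ball 0 1) := by
    unfold cay
    apply DifferentiableOn.div
    · fun_prop
    · fun_prop
    · intro ζ hζ
      exact one_sub_ne (by simpa using hζ)
  have hdd : DifferentiableOn ℂ d (ball 0 1) :=
    hD.comp hcayd fun ζ hζ => cay_pos (by simpa using hζ)
  have hd0 : d 0 = D 1 := by simp [hd, cay]
  have hind : ∀ z : ℂ, ‖z‖ < 1 → -2 * (cay z).re ≤ (d z * (1 - (starRingEnd ℂ) z)).re := by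
    intro z hz
    have hw := cay_pos hz
    have h1 := hin _ hw
    set w : ℂ := cay z with hwdef
    have hne1 := den_ne (a := 1) (b := w) (by simp) hw.le
    have hz1 := one_sub_ne hz
    have hz2 : 1 - (starRingEnd ℂ) z ≠ 0 := one_sub_ne (by rwa [RCLike.norm_conj])
    have hcw : (starRingEnd ℂ) w = (1 + (starRingEnd ℂ) z) / (1 - (starRingEnd ℂ) z) := by
      simp [hwdef, cay]
    have e0 : 1 + (starRingEnd ℂ) w = 2 / (1 - (starRingEnd ℂ) z) := by
      rw [hcw]
      field_simp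
      ring
    have e1 : d z * (1 - (starRingEnd ℂ) z) = 2 * ((D w + w.re * (1 - w.im * Complex.I)) /
        (1 + (starRingEnd ℂ) w)) - 2 * (w.re * ((1 - w.im * Complex.I) /
        (1 + (starRingEnd ℂ) w))) := by
      have : d z = D w := rfl
      rw [this, ← mul_sub, ← mul_div_assoc, ← sub_div, add_sub_cancel_right, e0]
      field_simp
    have e2 : ‖(1 - w.im * Complex.I) / (1 + (starRingEnd ℂ) w)‖ ≤ 1 := by
      rw [norm_div, div_le_one (norm_pos_iff.2 hne1)]
      refine le_of_sq_le_sq ?_ (norm_nonneg _)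
      simp only [← Complex.normSq_eq_norm_sq, Complex.normSq_apply, Complex.sub_re,
        Complex.sub_im, Complex.add_re, Complex.add_im, Complex.mul_re, Complex.mul_im,
        Complex.conj_re, Complex.conj_im, Complex.one_re, Complex.one_im, Complex.I_re,
        Complex.I_im, Complex.ofReal_re, Complex.ofReal_im]
      nlinarith
    have e3 : ((1 - w.im * Complex.I) / (1 + (starRingEnd ℂ) w)).re ≤ 1 :=
      ((le_abs_self _).trans (Complex.abs_re_le_norm _)).trans e2
    have e4 : (w.re * ((1 - w.im * Complex.I) / (1 + (starRingEnd ℂ) w)) : ℂ).re ≤ w.re := by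
      rw [Complex.re_ofReal_mul]
      calc _ ≤ w.re * 1 := mul_le_mul_of_nonneg_left e3 hw.le
        _ = _ := mul_one _
    rw [e1, Complex.sub_re]
    have e5 : ∀ u : ℂ, (2 * u).re = 2 * u.re := by
      intro u
      simp
    rw [e5, e5]
    linarith
  -- the functions on the half plane
  set ζ : ℂ → ℂ := fun w => (w - 1) / (w + 1) with hζ
  have hw1 : ∀ w : ℂ, 0 < w.re → w + 1 ≠ 0 := by
    intro w hw h0
    have := congrArg Complex.re h0
    simp at this
    linarith
  have hζlt : ∀ w : ℂ, 0 < w.re → ‖ζ w‖ < 1 := by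
    intro w hw
    have := sp_lt (a := w) (b := 1) hw (by simp)
    simpa [hζ] using this
  have hcζ : ∀ w : ℂ, 0 < w.re → cay (ζ w) = w := by
    intro w hw
    have h1 := hw1 w hw
    have h2 := one_sub_ne (hζlt w hw)
    simp only [cay]
    rw [div_eq_iff h2]
    simp only [hζ]
    field_simp
    ring
  set D0 : ℂ := D 1 with hD0
  set R : ℝ := D0.re with hR
  set J : ℝ := D0.im with hJ
  have hD0' : D0 = R + J * Complex.I := (Complex.re_add_im D0).symm
  have hD0c : (starRingEnd ℂ) D0 = R - J * Complex.I := by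
    apply Complex.ext <;> simp [hR, hJ]
  set g : ℂ → ℂ := fun w => d (ζ w) - dslope d 0 (ζ w) - (starRingEnd ℂ) (d 0) * ζ w -
    2 * J * Complex.I with hg
  have hds : DifferentiableOn ℂ (dslope d 0) (ball 0 1) :=
    (Complex.differentiableOn_dslope (ball_mem_nhds 0 one_pos)).2 hdd
  have hζd : DifferentiableOn ℂ ζ {w | 0 < w.re} := by
    apply DifferentiableOn.div
    · fun_prop
    · fun_prop
    · intro w hw
      exact hw1 w hw
  have hζm : MapsTo ζ {w | 0 < w.re} (ball 0 1) := fun w hw => by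
    simpa using hζlt w hw
  have hgd : DifferentiableOn ℂ g {w | 0 < w.re} :=
    (((hdd.comp hζd hζm).sub (hds.comp hζd hζm)).sub (hζd.const_mul _)).sub_const _
  have hgf : ∀ w : ℂ, 0 < w.re → w ≠ 1 → g w * (w ^ 2 - 1) =
      4 * R * w + 4 * J * Complex.I - 2 * (D w * (w + 1)) := by
    intro w hw hne
    have h1 := hw1 w hw
    have h2 : w - 1 ≠ 0 := sub_ne_zero.2 hne
    have h3 : ζ w ≠ 0 := div_ne_zero h2 h1
    have h4 : dslope d 0 (ζ w) = (D w - D0) / ζ w := by
      rw [dslope_of_ne _ h3, slope_def_field, sub_zero, hd0]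
      simp only [hd]
      rw [hcζ w hw]
    have h5 : d (ζ w) = D w := by
      simp only [hd]
      rw [hcζ w hw]
    simp only [hg]
    rw [h4, h5, hd0, hD0c, hD0']
    simp only [hζ]
    field_simp
    ring
  -- asymptotics
  have hinv : Tendsto (fun x : ℝ => ((x : ℂ))⁻¹) atTop (𝓝 0) := by
    have := tendsto_inv_atTop_zero (𝕜 := ℝ)
    have h2 : Tendsto (fun x : ℝ => ((x⁻¹ : ℝ) : ℂ)) atTop (𝓝 ((0 : ℝ) : ℂ)) :=
      (Complex.continuous_ofReal.tendsto 0).comp this
    simpa using h2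
  have hxg : ∀ x : ℝ, 1 < x → (x : ℂ) * g x = (4 * R + 4 * J * Complex.I * (x : ℂ)⁻¹ -
      2 * (1 + (x : ℂ)⁻¹) * ((x : ℂ)⁻¹) ^ 2 * ((x : ℂ) ^ 2 * D x)) / (1 - ((x : ℂ)⁻¹) ^ 2) := by
    intro x hx
    have hx0 : (x : ℂ) ≠ 0 := by exact_mod_cast (by linarith : x ≠ 0)
    have hx1 : (x : ℂ) ≠ 1 := by exact_mod_cast hx.ne'
    have hx2 : (x : ℂ) ^ 2 - 1 ≠ 0 := by
      have : x ^ 2 - 1 ≠ 0 := by nlinarith
      exact_mod_cast this
    have hx3 : 1 - ((x : ℂ)⁻¹) ^ 2 ≠ 0 := by
      have : 1 - ((x : ℂ)⁻¹) ^ 2 = ((x : ℂ) ^ 2 - 1) / (x : ℂ) ^ 2 := by field_simp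
      rw [this]
      exact div_ne_zero hx2 (pow_ne_zero 2 hx0)
    have h := hgf x (by simp; linarith) hx1
    have h' : g x = (4 * R * x + 4 * J * Complex.I - 2 * (D x * (x + 1))) / ((x : ℂ) ^ 2 - 1) := by
      rw [eq_div_iff hx2]
      exact h
    rw [h', eq_div_iff hx3]
    field_simp
  have lxg : Tendsto (fun x : ℝ => (x : ℂ) * g x) atTop (𝓝 (4 * R)) := by
    have h1 : Tendsto (fun x : ℝ => (4 * R + 4 * J * Complex.I * (x : ℂ)⁻¹ -
      2 * (1 + (x : ℂ)⁻¹) * ((x : ℂ)⁻¹) ^ 2 * ((x : ℂ) ^ 2 * D x)) / (1 - ((x : ℂ)⁻¹) ^ 2)) atTop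
      (𝓝 ((4 * R + 4 * J * Complex.I * 0 - 2 * (1 + 0) * 0 ^ 2 * 0) / (1 - 0 ^ 2))) := by
      refine Tendsto.div ?_ ?_ (by norm_num)
      · exact (((hinv.const_mul _).const_add _)).sub
          ((((hinv.const_add 1).const_mul 2).mul (hinv.pow 2)).mul bk)
      · exact (hinv.pow 2).const_sub 1
    have h2 : ((4 * R + 4 * J * Complex.I * 0 - 2 * (1 + 0) * 0 ^ 2 * 0) / (1 - 0 ^ 2) : ℂ) =
        4 * R := by ring
    rw [h2] at h1
    refine h1.congr' ?_
    filter_upwards [eventually_gt_atTop (1 : ℝ)] with x hx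
    exact (hxg x hx).symm
  -- Julia: the mass is removed
  have hg0 : ∀ w : ℂ, 0 < w.re → 0 ≤ (g w).re := by
    have hf : ∀ w : ℂ, 0 < w.re → 0 ≤ (g w + 2 * J * Complex.I + 2 * w).re := by
      intro w hw
      have := circle hdd hind (hζlt w hw)
      rw [hcζ w hw] at this
      simp only [hg]
      convert this using 2
      ring
    have hlim : Tendsto (fun x : ℝ => (g x + 2 * J * Complex.I + 2 * x) / x) atTop
        (𝓝 ((2 : ℝ) : ℂ)) := by
      have h1 : Tendsto (fun x : ℝ => ((x : ℂ) * g x) * ((x : ℂ)⁻¹) ^ 2 +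
          2 * J * Complex.I * (x : ℂ)⁻¹ + 2) atTop
          (𝓝 ((4 * R) * 0 ^ 2 + 2 * J * Complex.I * 0 + 2)) :=
        ((lxg.mul (hinv.pow 2)).add (hinv.const_mul _)).add_const 2
      have h2 : ((4 * R) * 0 ^ 2 + 2 * J * Complex.I * 0 + 2 : ℂ) = ((2 : ℝ) : ℂ) := by
        push_cast
        ring
      rw [h2] at h1
      refine h1.congr' ?_
      filter_upwards [eventually_gt_atTop (0 : ℝ)] with x hx
      have hx0 : (x : ℂ) ≠ 0 := by exact_mod_cast hx.ne'
      field_simp
    intro w hw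
    have := jw (f := fun w => g w + 2 * J * Complex.I + 2 * w)
      ((hgd.add_const _).add (by fun_prop)) hf two_pos hlim hw
    simp at this
    linarith
  have hR0 : 0 ≤ 4 * R := by
    have h1 : Tendsto (fun x : ℝ => ((x : ℂ) * g x).re) atTop (𝓝 (4 * R : ℂ).re) :=
      (Complex.continuous_re.tendsto _).comp lxg
    have h2 : (4 * R : ℂ).re = 4 * R := by simp
    rw [h2] at h1
    refine ge_of_tendsto h1 ?_
    filter_upwards [eventually_gt_atTop (0 : ℝ)] with x hx
    rw [Complex.re_ofReal_mul]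
    exact mul_nonneg hx.le (hg0 x (by simpa using hx))
  have hR00 : R = 0 := by
    by_contra hne
    have hRpos : 0 < R := lt_of_le_of_ne (by linarith) (Ne.symm hne)
    have hgne : ∀ w : ℂ, 0 < w.re → g w ≠ 0 := by
      intro w hw h0
      have hz : ∀ x : ℝ, 0 < x → (x : ℂ) * g x = 0 := by
        intro x hx
        have := harn hgd hg0 (w := (x : ℂ)) (z := w) (by simpa using hx) hw
        rw [h0, norm_zero, mul_zero] at this
        rw [norm_le_zero_iff.1 this, mul_zero]
      have h1 : Tendsto (fun x : ℝ => (x : ℂ) * g x) atTop (𝓝 0) := by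
        refine tendsto_const_nhds.congr' ?_
        filter_upwards [eventually_gt_atTop (0 : ℝ)] with x hx
        exact (hz x hx).symm
      have h2 := tendsto_nhds_unique lxg h1
      have h3 : (4 * R : ℂ).re = 0 := by rw [h2]; simp
      simp at h3
      exact hne h3
    have hlim : Tendsto (fun x : ℝ => (g x)⁻¹ / x) atTop (𝓝 (((4 * R)⁻¹ : ℝ) : ℂ)) := by
      have h1 := lxg.inv₀ (by exact_mod_cast (by positivity : (4 * R : ℝ) ≠ 0))
      have h2 : ((4 * R : ℂ))⁻¹ = (((4 * R)⁻¹ : ℝ) : ℂ) := by push_cast; ring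
      rw [h2] at h1
      refine h1.congr fun x => ?_
      rw [mul_inv, div_eq_mul_inv, mul_comm]
    have hjw := fun (x : ℝ) (hx : 0 < x) => jw (f := fun w => (g w)⁻¹)
      (hgd.inv fun w hw => hgne w hw) (fun w hw => by
        rw [Complex.inv_re]
        exact div_nonneg (hg0 w hw) (Complex.normSq_nonneg _))
      (c := (4 * R)⁻¹) (by positivity) hlim (w := (x : ℂ)) (by simpa using hx)
    have hfin : ∀ᶠ x : ℝ in atTop, 2 * R ≤ (1 + x⁻¹) * ((x : ℂ) ^ 2 * D x).re := by
      filter_upwards [eventually_gt_atTop (1 : ℝ)] with x hx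
      have hx0 : 0 < x := by linarith
      have h1 := hjw x hx0
      simp only [Complex.ofReal_re, Complex.inv_re] at h1
      have hnp : 0 < Complex.normSq (g x) := Complex.normSq_pos.2 (hgne x (by simpa using hx0))
      rw [inv_mul_le_iff₀ (by positivity), ← mul_div_assoc, le_div_iff₀ hnp] at h1
      -- x * normSq g ≤ 4 R re g
      set G : ℂ := (x : ℂ) * g x with hG
      have hGre : G.re = x * (g x).re := by rw [hG, Complex.re_ofReal_mul]
      have h2 : (g x).re ^ 2 ≤ Complex.normSq (g x) := by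
        rw [Complex.normSq_apply]
        nlinarith [mul_self_nonneg (g x).im]
      have h3 : x * (g x).re ^ 2 ≤ 4 * R * (g x).re :=
        (mul_le_mul_of_nonneg_left h2 hx0.le).trans h1
      have hgre : 0 < (g x).re := by
        rcases (hg0 x (by simpa using hx0)).eq_or_lt with h | h
        · exfalso
          rw [← h, mul_zero] at h1
          have : 0 < x * Complex.normSq (g x) := by positivity
          linarith
        · exact h
      have h4 : G.re ≤ 4 * R := by
        rw [hGre]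
        have : (g x).re * (x * (g x).re) ≤ (g x).re * (4 * R) := by nlinarith
        exact le_of_mul_le_mul_left this hgre
      have ht : 0 < 1 - (x⁻¹) ^ 2 := by
        have : x⁻¹ < 1 := inv_lt_one_of_one_lt₀ hx
        have h0 : 0 < x⁻¹ := by positivity
        nlinarith
      have h5 : G * ((1 - (x⁻¹) ^ 2 : ℝ) : ℂ) = 4 * R + 4 * J * Complex.I * ((x⁻¹ : ℝ) : ℂ) -
          ((2 * (1 + x⁻¹) * (x⁻¹) ^ 2 : ℝ) : ℂ) * ((x : ℂ) ^ 2 * D x) := by
        rw [hG, hxg x hx]
        have hx3 : 1 - ((x : ℂ)⁻¹) ^ 2 ≠ 0 := by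
          have := ht.ne'
          exact_mod_cast this
        push_cast
        rw [div_mul_cancel₀ _ hx3]
      have h6 := congrArg Complex.re h5
      rw [Complex.re_mul_ofReal, Complex.sub_re, Complex.re_ofReal_mul, Complex.re_ofReal_mul,
        ← hGre] at h6
      have h7 : (4 * R + 4 * J * Complex.I * ((x⁻¹ : ℝ) : ℂ) : ℂ).re = 4 * R := by
        simp
      rw [h7] at h6
      set q : ℝ := ((x : ℂ) ^ 2 * D x).re with hq
      have h8 : 4 * R - 2 * (1 + x⁻¹) * (x⁻¹) ^ 2 * q ≤ 4 * R * (1 - (x⁻¹) ^ 2) := by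
        rw [← h6]
        exact mul_le_mul_of_nonneg_right h4 ht.le
      have h9 : (x⁻¹) ^ 2 * (2 * R) ≤ (x⁻¹) ^ 2 * ((1 + x⁻¹) * q) := by nlinarith
      exact le_of_mul_le_mul_left h9 (by positivity)
    have hl : Tendsto (fun x : ℝ => (1 + x⁻¹) * ((x : ℂ) ^ 2 * D x).re) atTop
        (𝓝 ((1 + 0) * (0 : ℂ).re)) := by
      have h1 := (tendsto_inv_atTop_zero (𝕜 := ℝ)).const_add 1
      exact h1.mul ((Complex.continuous_re.tendsto _).comp bk)
    have := ge_of_tendsto hl hfin
    simp at this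
    linarith
  -- R = 0: Hopf
  have hg00 : ∀ w : ℂ, 0 < w.re → g w = 0 := by
    intro w hw
    refine hopf hgd hg0 ?_ hw
    have := lxg
    rw [hR00] at this
    simpa using this
  have hDw : ∀ w : ℂ, 0 < w.re → w ≠ 1 → D w * (w + 1) = 2 * J * Complex.I := by
    intro w hw hne
    have := hgf w hw hne
    rw [hg00 w hw, hR00] at this
    have h2 : 2 * (D w * (w + 1)) = 2 * (2 * J * Complex.I) := by
      push_cast at this
      linear_combination this
    exact mul_left_cancel₀ two_ne_zero h2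
  have hJ0 : (J : ℂ) = 0 := by
    have h1 : Tendsto (fun x : ℝ => ((x : ℂ) ^ 2 * D x) * ((x : ℂ)⁻¹ * (1 + (x : ℂ)⁻¹))) atTop
        (𝓝 (0 * (0 * (1 + 0)))) := bk.mul (hinv.mul (hinv.const_add 1))
    have h2 : Tendsto (fun _ : ℝ => (2 * J * Complex.I : ℂ)) atTop (𝓝 (0 * (0 * (1 + 0)))) := by
      refine h1.congr' ?_
      filter_upwards [eventually_gt_atTop (1 : ℝ)] with x hx
      have hx0 : (x : ℂ) ≠ 0 := by exact_mod_cast (by linarith : x ≠ 0)
      have hx1 : (x : ℂ) ≠ 1 := by exact_mod_cast hx.ne'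
      rw [← hDw x (by simp; linarith) hx1]
      field_simp
    have h3 := tendsto_nhds_unique h2 tendsto_const_nhds
    simp at h3
    exact_mod_cast h3
  intro w hw
  by_cases hne : w = 1
  · rw [hne, ← hD0, hD0', hR00, hJ0]
    simp
  · have := hDw w hw hne
    rw [hJ0] at this
    simp at this
    rcases this with h | h
    · exact h
    · exact absurd h (hw1 w hw)

/-- the second half of Burns-Krantz rigidity in the symmetrized bidisc -/
theorem stage2 (Y : ℂ → ℂ → ℂ)
    (hol : ∀ w2 : ℂ, 0 < w2.re → DifferentiableOn ℂ (fun w1 => Y w1 w2) {w | 0 < w.re})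
    (sym : ∀ w1 w2 : ℂ, 0 < w1.re → 0 < w2.re → Y w1 w2 = Y w2 w1)
    (dom : ∀ w1 w2 : ℂ, 0 < w1.re → 0 < w2.re → ∃ u1 u2 : ℂ, 0 < u1.re ∧ 0 < u2.re ∧
      u1 + u2 = w1 + w2 ∧ u1 * u2 = Y w1 w2)
    (bk : Tendsto (fun x : ℝ => (x : ℂ) ^ 2 * (Y x 1 - x)) atTop (𝓝 0)) :
    ∀ w1 w2 : ℂ, 0 < w1.re → 0 < w2.re → Y w1 w2 = w1 * w2 := by
  refine stage2b hol sym dom fun w1 hw1 => ?_
  have := stage2a (D := fun w => Y w 1 - w) ((hol 1 (by simp)).sub (by fun_prop))
    (fun w hw => by
      have := basic dom hw (w2 := 1) (by simp)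
      simpa using this) bk w1 hw1
  exact sub_eq_zero.1 this

end Pool.Agent.X197.BK
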