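import Mathlib

/-! Schwarz-Pick in the right half plane, Harnack, Julia-Wolff, Hopf (MP_f98e31_an). -/

set_option autoImplicit false

namespace Pool.Agent.X197.BK

open Metric Set Filter Topology

theorem key_id (a b : ℂ) : ‖a + (starRingEnd ℂ) b‖ ^ 2 = ‖a - b‖ ^ 2 + 4 * a.re * b.re := by
  simp only [← Complex.normSq_eq_norm_sq, Complex.normSq_apply, Complex.sub_re, Complex.sub_im,
    Complex.add_re, Complex.add_im, Complex.conj_re, Complex.conj_im]
  ring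

theorem den_ne {a b : ℂ} (ha : 0 < a.re) (hb : 0 ≤ b.re) : a + (starRingEnd ℂ) b ≠ 0 := by
  intro h
  have := congrArg Complex.re h
  simp at this
  linarith

theorem sp_lt {a b : ℂ} (ha : 0 < a.re) (hb : 0 < b.re) :
    ‖(a - b) / (a + (starRingEnd ℂ) b)‖ < 1 := by
  rw [norm_div, div_lt_one (norm_pos_iff.2 (den_ne ha hb.le))]
  have := key_id a b
  have h2 : 0 < 4 * a.re * b.re := by positivity
  exact lt_of_pow_lt_pow_left₀ 2 (norm_nonneg _) (by linarith)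

theorem sp1 {f : ℂ → ℂ} (hd : DifferentiableOn ℂ f {w | 0 < w.re})
    (hf : ∀ w : ℂ, 0 < w.re → 0 < (f w).re) {w z : ℂ} (hw : 0 < w.re) (hz : 0 < z.re) :
    ‖f w - f z‖ * ‖w + (starRingEnd ℂ) z‖ ≤ ‖w - z‖ * ‖f w + (starRingEnd ℂ) (f z)‖ := by
  set c : ℂ → ℂ := fun ζ => (z + (starRingEnd ℂ) z * ζ) / (1 - ζ) with hc
  have hne : ∀ ζ : ℂ, ‖ζ‖ < 1 → 1 - ζ ≠ 0 := by
    intro ζ h h0
    rw [sub_eq_zero] at h0
    rw [← h0, norm_one] at h
    exact lt_irrefl _ h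
  have hcre : ∀ ζ : ℂ, ‖ζ‖ < 1 → 0 < (c ζ).re := by
    intro ζ h
    have h1 : (c ζ).re = z.re * (1 - ‖ζ‖ ^ 2) / ‖1 - ζ‖ ^ 2 := by
      simp only [hc, Complex.div_re, ← Complex.normSq_eq_norm_sq, Complex.add_re, Complex.mul_re,
        Complex.add_im, Complex.mul_im, Complex.conj_re, Complex.conj_im, Complex.sub_re,
        Complex.sub_im, Complex.one_re, Complex.one_im]
      rw [← add_div]
      congr 1
      simp only [Complex.normSq_apply]
      ring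
    rw [h1]
    have h2 : ‖ζ‖ ^ 2 < 1 := by nlinarith [norm_nonneg ζ]
    have h3 : 0 < ‖1 - ζ‖ := norm_pos_iff.2 (hne ζ h)
    have : 0 < 1 - ‖ζ‖ ^ 2 := by linarith
    positivity
  set ψ : ℂ → ℂ := fun ζ => (f (c ζ) - f z) / (f (c ζ) + (starRingEnd ℂ) (f z)) with hψ
  have hcd : DifferentiableOn ℂ c (ball 0 1) := by
    apply DifferentiableOn.div
    · fun_prop
    · fun_prop
    · intro ζ hζ
      exact hne ζ (by simpa using hζ)
  have hfc : DifferentiableOn ℂ (fun ζ => f (c ζ)) (ball 0 1) :=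
    hd.comp hcd fun ζ hζ => hcre ζ (by simpa using hζ)
  have hψd : DifferentiableOn ℂ ψ (ball 0 1) := by
    apply DifferentiableOn.div
    · exact hfc.sub_const _
    · exact hfc.add_const _
    · intro ζ hζ
      exact den_ne (hf _ (hcre ζ (by simpa using hζ))) (hf z hz).le
  have hψm : MapsTo ψ (ball 0 1) (closedBall 0 1) := by
    intro ζ hζ
    have hζ' : ‖ζ‖ < 1 := by simpa using hζ
    exact mem_closedBall_zero_iff.2 (sp_lt (hf _ (hcre ζ hζ')) (hf z hz)).le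
  have hc0 : c 0 = z := by simp [hc]
  have hψ0 : ψ 0 = 0 := by
    show (f (c 0) - f z) / _ = 0
    rw [hc0, sub_self, zero_div]
  have hlt := sp_lt hw hz
  have hs := Complex.norm_le_norm_of_mapsTo_ball hψd hψm hψ0 hlt
  have hcw : c ((w - z) / (w + (starRingEnd ℂ) z)) = w := by
    have h1 := den_ne hw hz.le
    have h2 : 1 - (w - z) / (w + (starRingEnd ℂ) z) ≠ 0 := hne _ hlt
    have h3 : z + (starRingEnd ℂ) z ≠ 0 := by
      have := den_ne hz hz.le
      exact this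
    simp only [hc]
    rw [div_eq_iff h2]
    field_simp
    ring
  have hval : ψ ((w - z) / (w + (starRingEnd ℂ) z)) =
      (f w - f z) / (f w + (starRingEnd ℂ) (f z)) := by
    simp only [hψ, hcw]
  rw [hval, norm_div, norm_div, div_le_div_iff₀ (norm_pos_iff.2 (den_ne (hf w hw) (hf z hz).le))
    (norm_pos_iff.2 (den_ne hw hz.le))] at hs
  exact hs

theorem sp2p {f : ℂ → ℂ} (hd : DifferentiableOn ℂ f {w | 0 < w.re})
    (hf : ∀ w : ℂ, 0 < w.re → 0 < (f w).re) {w z : ℂ} (hw : 0 < w.re) (hz : 0 < z.re) :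
    w.re * z.re * ‖f w + (starRingEnd ℂ) (f z)‖ ^ 2 ≤
      (f w).re * (f z).re * ‖w + (starRingEnd ℂ) z‖ ^ 2 := by
  have h := sp1 hd hf hw hz
  have h2 := mul_self_le_mul_self (by positivity) h
  have h3 := key_id w z
  have h4 := key_id (f w) (f z)
  nlinarith

theorem sp2 {f : ℂ → ℂ} (hd : DifferentiableOn ℂ f {w | 0 < w.re})
    (hf : ∀ w : ℂ, 0 < w.re → 0 ≤ (f w).re) {w z : ℂ} (hw : 0 < w.re) (hz : 0 < z.re) :
    w.re * z.re * ‖f w + (starRingEnd ℂ) (f z)‖ ^ 2 ≤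
      (f w).re * (f z).re * ‖w + (starRingEnd ℂ) z‖ ^ 2 := by
  have key : ∀ δ : ℝ, 0 < δ → w.re * z.re * ‖(f w + δ) + (starRingEnd ℂ) (f z + δ)‖ ^ 2 ≤
      (f w + δ).re * (f z + δ).re * ‖w + (starRingEnd ℂ) z‖ ^ 2 := by
    intro δ hδ
    refine sp2p (f := fun w => f w + δ) (hd.add_const _) (fun w hw => ?_) hw hz
    have := hf w hw
    simp
    linarith
  have h1 : Tendsto (fun δ : ℝ => w.re * z.re * ‖(f w + δ) + (starRingEnd ℂ) (f z + δ)‖ ^ 2)
      (𝓝[>] 0) (𝓝 (w.re * z.re * ‖(f w + (0 : ℝ)) + (starRingEnd ℂ) (f z + (0 : ℝ))‖ ^ 2)) := by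
    refine tendsto_nhdsWithin_of_tendsto_nhds (Continuous.tendsto ?_ 0)
    have : Continuous fun δ : ℝ => (starRingEnd ℂ) (f z + δ) :=
      Complex.continuous_conj.comp (by fun_prop)
    fun_prop
  have h2 : Tendsto (fun δ : ℝ => (f w + δ).re * (f z + δ).re * ‖w + (starRingEnd ℂ) z‖ ^ 2)
      (𝓝[>] 0) (𝓝 ((f w + (0 : ℝ)).re * (f z + (0 : ℝ)).re * ‖w + (starRingEnd ℂ) z‖ ^ 2)) := by
    refine tendsto_nhdsWithin_of_tendsto_nhds (Continuous.tendsto ?_ 0)
    have h3 : Continuous fun δ : ℝ => (f w + δ).re := Complex.continuous_re.comp (by fun_prop)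
    have h4 : Continuous fun δ : ℝ => (f z + δ).re := Complex.continuous_re.comp (by fun_prop)
    fun_prop
  have := le_of_tendsto_of_tendsto h1 h2 (eventually_of_mem self_mem_nhdsWithin key)
  simpa using this

/-- Harnack -/
theorem harn {f : ℂ → ℂ} (hd : DifferentiableOn ℂ f {w | 0 < w.re})
    (hf : ∀ w : ℂ, 0 < w.re → 0 ≤ (f w).re) {w z : ℂ} (hw : 0 < w.re) (hz : 0 < z.re) :
    ‖f w‖ ≤ (‖w + (starRingEnd ℂ) z‖ ^ 2 / (w.re * z.re) + 1) * ‖f z‖ := by
  set Q : ℝ := ‖w + (starRingEnd ℂ) z‖ ^ 2 / (w.re * z.re) with hQ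
  have hwz : 0 < w.re * z.re := by positivity
  have hQ0 : 0 ≤ Q := by positivity
  have h := sp2 hd hf hw hz
  have h1 : ‖f w + (starRingEnd ℂ) (f z)‖ ^ 2 ≤ (f w).re * (f z).re * Q := by
    rw [hQ, ← mul_div_assoc, le_div_iff₀ hwz]
    linarith
  have hA : |(f w + (starRingEnd ℂ) (f z)).re| ≤ ‖f w + (starRingEnd ℂ) (f z)‖ :=
    Complex.abs_re_le_norm _
  have hre : (f w + (starRingEnd ℂ) (f z)).re = (f w).re + (f z).re := by simp
  rw [hre] at hA
  have h0w := hf w hw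
  have h0z := hf z hz
  rw [abs_of_nonneg (by linarith)] at hA
  have h2 : (f w).re ≤ Q * (f z).re := by
    rcases h0w.eq_or_lt with h00 | h00
    · rw [← h00]; positivity
    · have h3 : (f w).re * (f w).re ≤ (f w).re * ((f z).re * Q) := by
        have : ((f w).re + (f z).re) ^ 2 ≤ ‖f w + (starRingEnd ℂ) (f z)‖ ^ 2 :=
          pow_le_pow_left₀ (by linarith) hA 2
        nlinarith
      have := le_of_mul_le_mul_left h3 h00
      linarith
  have h3 : ‖f w + (starRingEnd ℂ) (f z)‖ ≤ Q * (f z).re := by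
    refine le_of_sq_le_sq ?_ (by positivity)
    have : (f w).re * (f z).re * Q ≤ Q * (f z).re * ((f z).re * Q) := by
      have := mul_le_mul_of_nonneg_right h2 (mul_nonneg h0z hQ0)
      linarith
    nlinarith
  have h4 : (f z).re ≤ ‖f z‖ := (le_abs_self _).trans (Complex.abs_re_le_norm _)
  calc ‖f w‖ = ‖(f w + (starRingEnd ℂ) (f z)) - (starRingEnd ℂ) (f z)‖ := by ring_nf
    _ ≤ ‖f w + (starRingEnd ℂ) (f z)‖ + ‖(starRingEnd ℂ) (f z)‖ := norm_sub_le _ _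
    _ ≤ Q * ‖f z‖ + ‖f z‖ := by
      rw [RCLike.norm_conj]
      have := mul_le_mul_of_nonneg_left h4 hQ0
      linarith
    _ = _ := by ring

/-- Hopf -/
theorem hopf {f : ℂ → ℂ} (hd : DifferentiableOn ℂ f {w | 0 < w.re})
    (hf : ∀ w : ℂ, 0 < w.re → 0 ≤ (f w).re)
    (ht : Tendsto (fun x : ℝ => (x : ℂ) * f x) atTop (𝓝 0)) {w : ℂ} (hw : 0 < w.re) :
    f w = 0 := by
  have key : ∀ᶠ x : ℝ in atTop, ‖f w‖ ≤
      ((‖w‖ + 1) ^ 2 / w.re + 1) * ‖(x : ℂ) * f x‖ := by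
    filter_upwards [eventually_ge_atTop (1 : ℝ)] with x hx
    have hx0 : 0 < x := by linarith
    have h := harn hd hf hw (z := (x : ℂ)) (by simpa using hx0)
    simp only [Complex.conj_ofReal, Complex.ofReal_re] at h
    refine h.trans ?_
    rw [norm_mul, Complex.norm_real, Real.norm_eq_abs, abs_of_pos hx0, ← mul_assoc]
    refine mul_le_mul_of_nonneg_right ?_ (norm_nonneg _)
    have h1 : ‖w + (x : ℂ)‖ ≤ (‖w‖ + 1) * x := by
      refine (norm_add_le _ _).trans ?_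
      rw [Complex.norm_real, Real.norm_eq_abs, abs_of_pos hx0]
      nlinarith [norm_nonneg w]
    have h2 : ‖w + (x : ℂ)‖ ^ 2 ≤ (‖w‖ + 1) ^ 2 * x ^ 2 := by
      rw [← mul_pow]
      exact pow_le_pow_left₀ (norm_nonneg _) h1 2
    have h3 : ‖w + (x : ℂ)‖ ^ 2 / (w.re * x) ≤ (‖w‖ + 1) ^ 2 / w.re * x := by
      rw [div_le_iff₀ (by positivity)]
      calc _ ≤ (‖w‖ + 1) ^ 2 * x ^ 2 := h2
        _ = _ := by field_simp
    linarith
  have hlim : Tendsto (fun x : ℝ => ((‖w‖ + 1) ^ 2 / w.re + 1) * ‖(x : ℂ) * f x‖) atTop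
      (𝓝 (((‖w‖ + 1) ^ 2 / w.re + 1) * ‖(0 : ℂ)‖)) := ht.norm.const_mul _
  rw [norm_zero, mul_zero] at hlim
  have := ge_of_tendsto hlim key
  exact norm_le_zero_iff.1 this

/-- Julia-Wolff -/
theorem jw {f : ℂ → ℂ} (hd : DifferentiableOn ℂ f {w | 0 < w.re})
    (hf : ∀ w : ℂ, 0 < w.re → 0 ≤ (f w).re) {c : ℝ} (hc : 0 < c)
    (ht : Tendsto (fun x : ℝ => f x / x) atTop (𝓝 (c : ℂ))) {w : ℂ} (hw : 0 < w.re) :
    c * w.re ≤ (f w).re := by
  have key : ∀ᶠ x : ℝ in atTop, w.re * ‖f w / x + (starRingEnd ℂ) (f x / x)‖ ^ 2 ≤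
      (f w).re * (f x / x).re * ‖w / x + 1‖ ^ 2 := by
    filter_upwards [eventually_gt_atTop (0 : ℝ)] with x hx0
    have h := sp2 hd hf hw (z := (x : ℂ)) (by simpa using hx0)
    simp only [Complex.conj_ofReal, Complex.ofReal_re] at h
    have hxc : (x : ℂ) ≠ 0 := by exact_mod_cast hx0.ne'
    have e1 : ‖f w / x + (starRingEnd ℂ) (f x / x)‖ = ‖f w + (starRingEnd ℂ) (f x)‖ / x := by
      rw [map_div₀, Complex.conj_ofReal, ← add_div, norm_div, Complex.norm_real, Real.norm_eq_abs,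
        abs_of_pos hx0]
    have e2 : ‖w / x + 1‖ = ‖w + (x : ℂ)‖ / x := by
      rw [show w / (x : ℂ) + 1 = (w + x) / x by field_simp, norm_div, Complex.norm_real,
        Real.norm_eq_abs, abs_of_pos hx0]
    have e3 : (f x / x).re = (f x).re / x := by
      rw [Complex.div_ofReal_re]
    rw [e1, e2, e3]
    have h5 : w.re * (‖f w + (starRingEnd ℂ) (f x)‖ / x) ^ 2 =
        (w.re * x * ‖f w + (starRingEnd ℂ) (f x)‖ ^ 2) / x ^ 3 := by
      field_simp
    have h6 : (f w).re * ((f x).re / x) * (‖w + (x : ℂ)‖ / x) ^ 2 =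
        ((f w).re * (f x).re * ‖w + (x : ℂ)‖ ^ 2) / x ^ 3 := by
      field_simp
    rw [h5, h6]
    exact div_le_div_of_nonneg_right h (by positivity)
  have hinv : Tendsto (fun x : ℝ => ((x : ℂ))⁻¹) atTop (𝓝 0) := by
    have := tendsto_inv_atTop_zero (𝕜 := ℝ)
    have h2 : Tendsto (fun x : ℝ => ((x⁻¹ : ℝ) : ℂ)) atTop (𝓝 ((0 : ℝ) : ℂ)) :=
      (Complex.continuous_ofReal.tendsto 0).comp this
    simpa using h2
  have l1 : Tendsto (fun x : ℝ => w.re * ‖f w / x + (starRingEnd ℂ) (f x / x)‖ ^ 2) atTop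
      (𝓝 (w.re * ‖f w * 0 + (starRingEnd ℂ) (c : ℂ)‖ ^ 2)) := by
    have h1 : Tendsto (fun x : ℝ => f w / x) atTop (𝓝 (f w * 0)) := by
      simpa only [div_eq_mul_inv] using hinv.const_mul (f w)
    have h2 := (Complex.continuous_conj.tendsto (c : ℂ)).comp ht
    exact (((h1.add h2).norm).pow 2).const_mul _
  have l2 : Tendsto (fun x : ℝ => (f w).re * (f x / x).re * ‖w / x + 1‖ ^ 2) atTop
      (𝓝 ((f w).re * (c : ℂ).re * ‖w * 0 + 1‖ ^ 2)) := by
    have h1 : Tendsto (fun x : ℝ => w / x) atTop (𝓝 (w * 0)) := by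
      simpa only [div_eq_mul_inv] using hinv.const_mul w
    have h2 := (Complex.continuous_re.tendsto (c : ℂ)).comp ht
    exact (h2.const_mul _).mul (((h1.add_const 1).norm).pow 2)
  have := le_of_tendsto_of_tendsto l1 l2 key
  simp only [mul_zero, zero_add, Complex.conj_ofReal, Complex.norm_real, Real.norm_eq_abs, sq_abs,
    Complex.ofReal_re, norm_one, one_pow, mul_one] at this
  have h3 : c * (c * w.re) ≤ c * (f w).re := by nlinarith
  exact le_of_mul_le_mul_left h3 hc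

end Pool.Agent.X197.BK
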